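import Mathlib

open MeasureTheory Filter Topology

namespace Pool.Agent.H336Z.GW

universe u v w

/-- The Fourier-Stieltjes transform `n ↦ ∫ exp (2 π i n t) dμ(t)` of a complex Borel measure `μ`
on the circle `ℝ / ℤ`. -/
noncomputable def fsTransform (μ : ComplexMeasure UnitAddCircle) (n : ℤ) : ℂ :=
  VectorMeasure.integral μ (fun t => fourier n t) (ContinuousLinearMap.mul ℝ ℂ)

/-- The algebra `B(ℤ)` of Fourier-Stieltjes transforms of complex Borel measures on the circle. -/
def BZ : Set (ℤ → ℂ) := Set.range fsTransform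

/-- `H(ℤ)`: the closure of `B(ℤ)` in the sup norm. -/
def HZ : Set (ℤ → ℂ) := {f | ∀ ε : ℝ, 0 < ε → ∃ g ∈ BZ, ∀ n : ℤ, ‖f n - g n‖ ≤ ε}

section

variable {X : Type u} {Y : Type v} [TopologicalSpace X] [TopologicalSpace Y]

/-- `x₀` has a dense two-sided orbit under `T`. -/
def IsTransitivePoint (T : X ≃ₜ X) (x₀ : X) : Prop :=
  DenseRange fun n : ℤ => (T ^ n) x₀

/-- Point-transitive and without isolated points. -/
def RecurrentTransitive (T : X ≃ₜ X) : Prop :=
  (∃ x₀, IsTransitivePoint T x₀) ∧ ∀ x : X, ¬ IsOpen ({x} : Set X)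

/-- The algebra `𝒜(X, x₀)` of the sequences `n ↦ F (Tⁿ x₀)` with `F` continuous on `X`. -/
def orbitAlgebra (T : X ≃ₜ X) (x₀ : X) : Set (ℤ → ℂ) :=
  {f | ∃ F : C(X, ℂ), f = fun n : ℤ => F ((T ^ n) x₀)}

/-- A Hilbert system: `𝒜(X, x₀) ⊆ H(ℤ)` for a transitive point `x₀`. -/
def IsHilbertSystem (T : X ≃ₜ X) : Prop :=
  ∃ x₀, IsTransitivePoint T x₀ ∧ orbitAlgebra T x₀ ⊆ HZ

/-- A factor map `(X, T) → (Y, S)`: a continuous equivariant surjection. -/
def IsFactorMap (T : X ≃ₜ X) (S : Y ≃ₜ Y) (π : X → Y) : Prop :=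
  Continuous π ∧ Function.Surjective π ∧ ∀ x, π (T x) = S (π x)

/-- `π` is almost one-to-one: its fibres through the points of some dense `G_δ` set are
singletons. -/
def AlmostOneOne (π : X → Y) : Prop :=
  ∃ X₀ : Set X, IsGδ X₀ ∧ Dense X₀ ∧ ∀ x ∈ X₀, π ⁻¹' {π x} = {x}

/-- The orbit equivalence relation of a group `K` of homeomorphisms of `X`. -/
def orbitSetoid (K : Subgroup (X ≃ₜ X)) : Setoid X where
  r x x' := ∃ k ∈ K, k x = x'
  iseqv :=
    { refl := fun x => ⟨1, K.one_mem, rfl⟩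
      symm := by
        rintro x _ ⟨k, hk, rfl⟩
        exact ⟨k⁻¹, K.inv_mem hk, k.symm_apply_apply x⟩
      trans := by
        rintro x _ _ ⟨k, hk, rfl⟩ ⟨l, hl, rfl⟩
        exact ⟨l * k, K.mul_mem hl hk, rfl⟩ }

/-- `(Y, S)` is a group-factor of `(X, T)`: there is a subgroup `K` of `Homeo(X)`, compact in the
compact-open topology, whose elements commute with `T`, such that the quotient system
`(X / K, T)` is isomorphic to `(Y, S)`. -/
def IsGroupFactor (T : X ≃ₜ X) (S : Y ≃ₜ Y) : Prop :=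
  ∃ K : Subgroup (X ≃ₜ X),
    IsCompact ((fun k : X ≃ₜ X => (k : C(X, X))) '' (K : Set (X ≃ₜ X))) ∧
    (∀ k ∈ K, Commute k T) ∧
    ∃ e : Quotient (orbitSetoid K) ≃ₜ Y,
      ∀ x : X, e (Quotient.mk (orbitSetoid K) (T x)) = S (e (Quotient.mk (orbitSetoid K) x))

/-- A complex Hilbert space with a unitary operator. -/
structure UnitarySpace where
  /-- the underlying space -/
  H : Type w
  [normed : NormedAddCommGroup H]
  [inner : InnerProductSpace ℂ H]
  [complete : CompleteSpace H]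
  /-- the unitary operator -/
  U : H ≃ₗᵢ[ℂ] H

/-- The Hilbert space with its weak topology. -/
def UnitarySpace.Weak (A : UnitarySpace.{w}) : Type w :=
  letI := A.normed
  letI := A.inner
  WeakSpace ℂ A.H

/-- The weak topology. -/
noncomputable def UnitarySpace.weakTop (A : UnitarySpace.{w}) : TopologicalSpace A.Weak :=
  letI := A.normed
  letI := A.inner
  inferInstanceAs (TopologicalSpace (WeakSpace ℂ A.H))

/-- The unitary operator acting on the space with the weak topology (`WeakSpace ℂ H` is a type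
synonym of `H`). -/
noncomputable def UnitarySpace.act (A : UnitarySpace.{w}) (v : A.Weak) : A.Weak :=
  letI := A.normed
  letI := A.inner
  A.U.toEquiv v

/-- `(X, T)` is metrizable and isomorphic to `(Z, U|_Z)` for a unitary `U` on a complex Hilbert
space `H` and a weakly compact set `Z ⊆ H` with `U Z = Z`, carrying the weak topology. -/
def HilbertRepresentable (T : X ≃ₜ X) : Prop :=
  TopologicalSpace.MetrizableSpace X ∧
  ∃ (A : UnitarySpace.{w}) (Z : Set A.Weak),
    letI := A.weakTop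
    IsCompact Z ∧ A.act '' Z = Z ∧ ∃ e : X ≃ₜ Z, ∀ x : X, (e (T x) : A.Weak) = A.act (e x)

end

end Pool.Agent.H336Z.GW
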