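import Mathlib
import Pool.Agent.H336Z.GW.Defs

open MeasureTheory Filter Topology

namespace Pool.Agent.H336Z.GW

/-- transform of a positive measure -/
noncomputable def hat (μ : Measure UnitAddCircle) (n : ℤ) : ℂ := ∫ t, fourier n t ∂μ

/-- transforms of finite positive measures -/
def PP : Set (ℤ → ℂ) := {g | ∃ μ : Measure UnitAddCircle, IsFiniteMeasure μ ∧ g = hat μ}

/-- the complex measure `c ν` -/
noncomputable def cm (ν : Measure UnitAddCircle) [IsFiniteMeasure ν] (c : ℂ) :
    ComplexMeasure UnitAddCircle :=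
  ν.toSignedMeasure.mapRange (ContinuousLinearMap.toSpanSingleton ℝ c).toLinearMap.toAddMonoidHom
    (ContinuousLinearMap.toSpanSingleton ℝ c).continuous

lemma cm_apply (ν : Measure UnitAddCircle) [IsFiniteMeasure ν] (c : ℂ) {s : Set UnitAddCircle}
    (hs : MeasurableSet s) : cm ν c s = (ν.real s : ℂ) * c := by
  simp [cm, Measure.toSignedMeasure_apply_measurable hs]

lemma variation_cm_le (ν : Measure UnitAddCircle) [IsFiniteMeasure ν] (c : ℂ) :
    (cm ν c).variation ≤ ‖c‖ₑ • ν := by
  apply VectorMeasure.variation_le_of_forall_enorm_le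
  intro E hE
  rw [cm_apply ν c hE, enorm_mul, Measure.smul_apply, smul_eq_mul, mul_comm]
  apply le_of_eq
  congr 1
  rw [← ofReal_norm, Complex.norm_real, Real.norm_eq_abs, abs_of_nonneg measureReal_nonneg,
    ofReal_measureReal]

instance (ν : Measure UnitAddCircle) [IsFiniteMeasure ν] (c : ℂ) :
    IsFiniteMeasure (cm ν c).variation := by
  have : IsFiniteMeasure (‖c‖ₑ • ν) := by
    constructor
    rw [Measure.smul_apply, smul_eq_mul]
    exact ENNReal.mul_lt_top enorm_lt_top (measure_lt_top _ _)
  exact isFiniteMeasure_of_le _ (variation_cm_le ν c)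

lemma integral_cm (ν : Measure UnitAddCircle) [IsFiniteMeasure ν] (c : ℂ)
    {f : UnitAddCircle → ℂ} (hf : Integrable f ν) :
    VectorMeasure.integral (cm ν c) f (ContinuousLinearMap.mul ℝ ℂ) = (∫ t, f t ∂ν) * c := by
  have hT : DominatedFinMeasAdditive ν ((cm ν c).transpose (ContinuousLinearMap.mul ℝ ℂ)) ‖c‖ := by
    refine ⟨fun s t hs ht _ _ hdisj =>
      cbmApplyMeasure_union (cm ν c) (ContinuousLinearMap.mul ℝ ℂ) hs ht hdisj, fun s hs _ => ?_⟩
    refine ContinuousLinearMap.opNorm_le_bound _ (by positivity) fun x => ?_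
    rw [transpose_eq_cbmApplyMeasure, cbmApplyMeasure_apply, cm_apply ν c hs]
    simp only [ContinuousLinearMap.mul_apply', norm_mul, Complex.norm_real, Real.norm_eq_abs,
      abs_of_nonneg (measureReal_nonneg (μ := ν) (s := s))]
    apply le_of_eq
    ring
  rw [VectorMeasure.integral_eq_setToFun,
    ← setToFun_congr_measure_of_integrable ‖c‖ₑ enorm_ne_top (variation_cm_le ν c) hT _ f hf]
  refine Integrable.induction (μ := ν)
    (fun f => setToFun ν _ hT f = (∫ t, f t ∂ν) * c) ?_ ?_ ?_ ?_ hf
  · intro a s hs hs'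
    rw [setToFun_indicator_const hT hs hs'.ne, integral_indicator_const _ hs,
      transpose_eq_cbmApplyMeasure, cbmApplyMeasure_apply, cm_apply ν c hs]
    simp only [ContinuousLinearMap.mul_apply', Complex.real_smul]
    ring
  · intro f g _ hf hg h1 h2
    rw [setToFun_add hT hf hg, h1, h2]
    simp only [Pi.add_apply]
    rw [integral_add hf hg, add_mul]
  · exact isClosed_eq (continuous_setToFun hT) (continuous_integral.mul continuous_const)
  · intro f g hfg _ h
    rw [← setToFun_congr_ae hT hfg, h, integral_congr_ae hfg]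

lemma integrable_fourier (μ : Measure UnitAddCircle) [IsFiniteMeasure μ] (n : ℤ) :
    Integrable (fun t : UnitAddCircle => fourier n t) μ :=
  (BoundedContinuousFunction.mkOfCompact (fourier n)).integrable μ

lemma fs_cm (ν : Measure UnitAddCircle) [IsFiniteMeasure ν] (c : ℂ) :
    fsTransform (cm ν c) = c • hat ν := by
  funext n
  rw [fsTransform, integral_cm ν c (integrable_fourier ν n), Pi.smul_apply, smul_eq_mul,
    mul_comm, hat]

lemma exists_decomp (μ : ComplexMeasure UnitAddCircle) :
    ∃ (a b c d : Measure UnitAddCircle) (_ : IsFiniteMeasure a) (_ : IsFiniteMeasure b)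
      (_ : IsFiniteMeasure c) (_ : IsFiniteMeasure d),
      μ = cm a 1 + cm b (-1) + cm c Complex.I + cm d (-Complex.I) := by
  refine ⟨μ.re.toJordanDecomposition.posPart, μ.re.toJordanDecomposition.negPart,
    μ.im.toJordanDecomposition.posPart, μ.im.toJordanDecomposition.negPart,
    inferInstance, inferInstance, inferInstance, inferInstance, ?_⟩
  ext s hs
  have h1 := congrArg (fun x : SignedMeasure UnitAddCircle => x s)
    (SignedMeasure.toSignedMeasure_toJordanDecomposition μ.re)
  have h2 := congrArg (fun x : SignedMeasure UnitAddCircle => x s)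
    (SignedMeasure.toSignedMeasure_toJordanDecomposition μ.im)
  simp only [JordanDecomposition.toSignedMeasure, VectorMeasure.sub_apply,
    Measure.toSignedMeasure_apply_measurable hs] at h1 h2
  have h3 : μ.re s = (μ s).re := rfl
  have h4 : μ.im s = (μ s).im := rfl
  simp only [VectorMeasure.add_apply, cm_apply _ _ hs]
  rw [h3] at h1
  rw [h4] at h2
  apply Complex.ext
  · rw [← h1]
    simp
    ring
  · rw [← h2]
    simp
    ring

instance finite_variation (μ : ComplexMeasure UnitAddCircle) : IsFiniteMeasure μ.variation := by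
  obtain ⟨a, b, c, d, _, _, _, _, rfl⟩ := exists_decomp μ
  refine isFiniteMeasure_of_le ((cm a 1).variation + (cm b (-1)).variation
    + (cm c Complex.I).variation + (cm d (-Complex.I)).variation) ?_
  refine VectorMeasure.variation_add_le.trans (add_le_add ?_ le_rfl)
  refine VectorMeasure.variation_add_le.trans (add_le_add ?_ le_rfl)
  exact VectorMeasure.variation_add_le

lemma fs_add (μ ν : ComplexMeasure UnitAddCircle) :
    fsTransform (μ + ν) = fsTransform μ + fsTransform ν := by
  funext n
  exact VectorMeasure.integral_add_vectorMeasure (integrable_fourier _ n) (integrable_fourier _ n)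

lemma fs_zero : fsTransform 0 = 0 := by
  funext n
  exact VectorMeasure.integral_zero_vectorMeasure

/-- the span of the transforms of positive measures -/
def BB : Submodule ℂ (ℤ → ℂ) := Submodule.span ℂ PP

lemma hat_mem_BB (μ : Measure UnitAddCircle) [h : IsFiniteMeasure μ] : hat μ ∈ BB :=
  Submodule.subset_span ⟨μ, h, rfl⟩

lemma BZ_eq : BZ = (BB : Set (ℤ → ℂ)) := by
  apply Set.Subset.antisymm
  · rintro _ ⟨μ, rfl⟩
    obtain ⟨a, b, c, d, _, _, _, _, rfl⟩ := exists_decomp μ
    rw [fs_add, fs_add, fs_add, fs_cm, fs_cm, fs_cm, fs_cm]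
    exact BB.add_mem (BB.add_mem (BB.add_mem (BB.smul_mem _ (hat_mem_BB _))
      (BB.smul_mem _ (hat_mem_BB _))) (BB.smul_mem _ (hat_mem_BB _)))
      (BB.smul_mem _ (hat_mem_BB _))
  · intro g hg
    have key : ∀ c : ℂ, c • g ∈ BZ := by
      refine Submodule.span_induction (p := fun g _ => ∀ c : ℂ, c • g ∈ BZ) ?_ ?_ ?_ ?_ hg
      · rintro _ ⟨μ, _, rfl⟩ c
        exact ⟨cm μ c, fs_cm μ c⟩
      · intro c
        exact ⟨0, by rw [fs_zero, smul_zero]⟩
      · intro x y _ _ hx hy c
        obtain ⟨μ, hμ⟩ := hx c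
        obtain ⟨ν, hν⟩ := hy c
        exact ⟨μ + ν, by rw [fs_add, hμ, hν, smul_add]⟩
      · intro a x _ hx c
        rw [smul_smul]
        exact hx _
    simpa using key 1

end Pool.Agent.H336Z.GW
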