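import Mathlib
import Pool.Agent.H336Z.GW.FS

open MeasureTheory Filter Topology ComplexConjugate

namespace Pool.Agent.H336Z.GW

lemma fourier_arg_add (n : ℤ) (x y : UnitAddCircle) :
    fourier n (x + y) = fourier n x * fourier n y := by
  simp only [fourier_apply, smul_add, AddCircle.toCircle_add, Circle.coe_mul]

lemma fourier_arg_neg (n : ℤ) (x : UnitAddCircle) : fourier n (-x) = conj (fourier n x) := by
  rw [← fourier_neg, fourier_apply, fourier_apply, smul_neg, neg_smul]

lemma norm_fourier_apply (n : ℤ) (x : UnitAddCircle) : ‖fourier n x‖ = 1 := by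
  rw [fourier_apply]
  exact Circle.norm_coe _

lemma hat_dirac (t : UnitAddCircle) : hat (Measure.dirac t) = fun n => fourier n t := by
  funext n
  rw [hat, integral_dirac]

lemma hat_conv (μ ν : Measure UnitAddCircle) [IsFiniteMeasure μ] [IsFiniteMeasure ν] :
    hat (μ.conv ν) = hat μ * hat ν := by
  funext n
  rw [Pi.mul_apply, hat, hat, hat, integral_conv (integrable_fourier _ n)]
  simp only [fourier_arg_add]
  simp only [integral_const_mul, integral_mul_const]

lemma hat_neg (μ : Measure UnitAddCircle) : hat (μ.map Neg.neg) = star (hat μ) := by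
  funext n
  rw [Pi.star_apply, hat, hat, integral_map measurable_neg.aemeasurable
    (fourier n).continuous.aestronglyMeasurable]
  simp only [fourier_arg_neg]
  rw [integral_conj]
  rfl

lemma hat_add (μ ν : Measure UnitAddCircle) [IsFiniteMeasure μ] [IsFiniteMeasure ν] :
    hat (μ + ν) = hat μ + hat ν := by
  funext n
  rw [Pi.add_apply, hat, hat, hat,
    integral_add_measure (integrable_fourier _ n) (integrable_fourier _ n)]

lemma hat_smul (a : NNReal) (μ : Measure UnitAddCircle) :
    hat (a • μ) = ((a : ℝ) : ℂ) • hat μ := by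
  funext n
  rw [Pi.smul_apply, hat, hat, integral_smul_nnreal_measure, NNReal.smul_def, Complex.real_smul,
    smul_eq_mul]

lemma one_mem_BB : (1 : ℤ → ℂ) ∈ BB := by
  have h := hat_mem_BB (Measure.dirac (0 : UnitAddCircle))
  rw [hat_dirac] at h
  have h2 : (fun n : ℤ => fourier n (0 : UnitAddCircle)) = 1 := by
    funext n
    exact fourier_eval_zero n
  rwa [h2] at h

lemma mul_mem_BB {f g : ℤ → ℂ} (hf : f ∈ BB) (hg : g ∈ BB) : f * g ∈ BB := by
  refine Submodule.span_induction (p := fun f _ => f * g ∈ BB) ?_ ?_ ?_ ?_ hf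
  · rintro _ ⟨μ, _, rfl⟩
    refine Submodule.span_induction (p := fun g _ => hat μ * g ∈ BB) ?_ ?_ ?_ ?_ hg
    · rintro _ ⟨ν, _, rfl⟩
      rw [← hat_conv]
      exact hat_mem_BB _
    · rw [mul_zero]; exact BB.zero_mem
    · intro x y _ _ hx hy
      rw [mul_add]; exact BB.add_mem hx hy
    · intro a x _ hx
      rw [mul_smul_comm]; exact BB.smul_mem _ hx
  · rw [zero_mul]; exact BB.zero_mem
  · intro x y _ _ hx hy
    rw [add_mul]; exact BB.add_mem hx hy
  · intro a x _ hx
    rw [smul_mul_assoc]; exact BB.smul_mem _ hx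

lemma star_mem_BB {f : ℤ → ℂ} (hf : f ∈ BB) : star f ∈ BB := by
  refine Submodule.span_induction (p := fun f _ => star f ∈ BB) ?_ ?_ ?_ ?_ hf
  · rintro _ ⟨μ, _, rfl⟩
    rw [← hat_neg]
    exact hat_mem_BB _
  · rw [star_zero]; exact BB.zero_mem
  · intro x y _ _ hx hy
    rw [star_add]; exact BB.add_mem hx hy
  · intro a x _ hx
    rw [star_smul]; exact BB.smul_mem _ hx

lemma density_mem_BB (μ : Measure UnitAddCircle) [IsFiniteMeasure μ] (g : C(UnitAddCircle, ℝ))
    (hg : ∀ t, 0 ≤ g t) : (fun n => ∫ t, (g t : ℂ) * fourier n t ∂μ) ∈ BB := by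
  have hi : Integrable g μ := (BoundedContinuousFunction.mkOfCompact g).integrable μ
  have := isFiniteMeasure_withDensity_ofReal hi.2
  have h := hat_mem_BB (μ.withDensity fun t => ENNReal.ofReal (g t))
  have h2 : hat (μ.withDensity fun t => ENNReal.ofReal (g t))
      = fun n => ∫ t, (g t : ℂ) * fourier n t ∂μ := by
    funext n
    have hm : Measurable fun t => ENNReal.ofReal (g t) :=
      ENNReal.measurable_ofReal.comp g.continuous.measurable
    rw [hat, integral_withDensity_eq_integral_toReal_smul hm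
      (Eventually.of_forall fun _ => ENNReal.ofReal_lt_top)]
    refine integral_congr_ae (Eventually.of_forall fun t => ?_)
    simp only [ENNReal.toReal_ofReal (hg t), Complex.real_smul]
  rwa [h2] at h

lemma translate_mem_BB {f : ℤ → ℂ} (hf : f ∈ BB) (m : ℤ) : (fun n => f (m + n)) ∈ BB := by
  refine Submodule.span_induction (p := fun f _ => (fun n => f (m + n)) ∈ BB) ?_ ?_ ?_ ?_ hf
  · rintro _ ⟨μ, _, rfl⟩
    let g1 : C(UnitAddCircle, ℝ) := ⟨fun t => (fourier m t).re + 1, by fun_prop⟩
    let g2 : C(UnitAddCircle, ℝ) := ⟨fun t => (fourier m t).im + 1, by fun_prop⟩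
    have h1 := density_mem_BB μ g1 fun t => by
      have := Complex.abs_re_le_norm (fourier m t)
      rw [norm_fourier_apply] at this
      have := (abs_le.1 this).1
      change 0 ≤ (fourier m t).re + 1
      linarith
    have h2 := density_mem_BB μ g2 fun t => by
      have := Complex.abs_im_le_norm (fourier m t)
      rw [norm_fourier_apply] at this
      have := (abs_le.1 this).1
      change 0 ≤ (fourier m t).im + 1
      linarith
    have h3 := BB.add_mem (BB.add_mem h1 (BB.smul_mem Complex.I h2))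
      (BB.smul_mem (-1 - Complex.I) (hat_mem_BB μ))
    convert h3 using 1
    funext n
    have i1 : Integrable (fun t => (g1 t : ℂ) * fourier n t) μ :=
      (BoundedContinuousFunction.mkOfCompact
        (⟨fun t => (g1 t : ℂ) * fourier n t, by fun_prop⟩ : C(UnitAddCircle, ℂ))).integrable μ
    have i2 : Integrable (fun t => (g2 t : ℂ) * fourier n t) μ :=
      (BoundedContinuousFunction.mkOfCompact
        (⟨fun t => (g2 t : ℂ) * fourier n t, by fun_prop⟩ : C(UnitAddCircle, ℂ))).integrable μ
    simp only [Pi.add_apply, Pi.smul_apply, smul_eq_mul, hat]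
    have i3 : Integrable (fun t => (g1 t : ℂ) * fourier n t
        + Complex.I * ((g2 t : ℂ) * fourier n t)) μ := i1.add (i2.const_mul _)
    rw [← integral_const_mul, ← integral_const_mul, ← integral_add i1 (i2.const_mul _),
      ← integral_add i3 ((integrable_fourier μ n).const_mul _)]
    refine integral_congr_ae (Eventually.of_forall fun t => ?_)
    simp only [fourier_add, g1, g2, ContinuousMap.coe_mk, Complex.ofReal_add, Complex.ofReal_one]
    conv_lhs => rw [← Complex.re_add_im (fourier m t)]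
    ring
  · exact BB.zero_mem
  · intro x y _ _ hx hy
    exact BB.add_mem hx hy
  · intro a x _ hx
    exact BB.smul_mem a hx

/-- transforms of probability measures -/
def P1 : Set (ℤ → ℂ) := Set.range fun μ : ProbabilityMeasure UnitAddCircle => hat μ

lemma isClosed_P1 : IsClosed P1 := by
  refine (isCompact_range (continuous_pi fun n => ?_)).isClosed
  refine continuous_iff_continuousAt.2 fun μ => ?_
  exact (ProbabilityMeasure.tendsto_iff_forall_integral_rclike_tendsto ℂ).1 tendsto_id
    (BoundedContinuousFunction.mkOfCompact (fourier n))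

lemma P1_mem_BB {f : ℤ → ℂ} (hf : f ∈ P1) : f ∈ BB := by
  obtain ⟨μ, rfl⟩ := hf
  exact hat_mem_BB _

lemma char_mem_P1 (t : UnitAddCircle) : (fun n => fourier n t) ∈ P1 :=
  ⟨⟨Measure.dirac t, inferInstance⟩, hat_dirac t⟩

lemma one_mem_P1 : (1 : ℤ → ℂ) ∈ P1 := by
  have h := char_mem_P1 0
  have h2 : (fun n : ℤ => fourier n (0 : UnitAddCircle)) = 1 := by
    funext n
    exact fourier_eval_zero n
  rwa [h2] at h

lemma mul_mem_P1 {f g : ℤ → ℂ} (hf : f ∈ P1) (hg : g ∈ P1) : f * g ∈ P1 := by
  obtain ⟨μ, rfl⟩ := hf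
  obtain ⟨ν, rfl⟩ := hg
  exact ⟨⟨(μ : Measure UnitAddCircle).conv ν, inferInstance⟩, hat_conv _ _⟩

lemma pow_mem_P1 {f : ℤ → ℂ} (hf : f ∈ P1) (k : ℕ) : f ^ k ∈ P1 := by
  induction k with
  | zero => rw [pow_zero]; exact one_mem_P1
  | succ k ih => rw [pow_succ]; exact mul_mem_P1 ih hf

lemma combo_mem_P1 {f g : ℤ → ℂ} (hf : f ∈ P1) (hg : g ∈ P1) {a b : ℝ} (ha : 0 ≤ a) (hb : 0 ≤ b)
    (hab : a + b = 1) : (a : ℂ) • f + (b : ℂ) • g ∈ P1 := by
  obtain ⟨μ, rfl⟩ := hf
  obtain ⟨ν, rfl⟩ := hg
  lift a to NNReal using ha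
  lift b to NNReal using hb
  have hab' : a + b = 1 := by exact_mod_cast hab
  refine ⟨⟨a • (μ : Measure UnitAddCircle) + b • (ν : Measure UnitAddCircle), ⟨?_⟩⟩, ?_⟩
  · simp only [Measure.add_apply, Measure.smul_apply, measure_univ]
    rw [ENNReal.smul_def, ENNReal.smul_def, smul_eq_mul, smul_eq_mul, mul_one, mul_one,
      ← ENNReal.coe_add, hab', ENNReal.coe_one]
  · change hat (a • (μ : Measure UnitAddCircle) + b • (ν : Measure UnitAddCircle)) = _
    rw [hat_add, hat_smul, hat_smul]

lemma cos_mem_P1 (θ : ℝ) : (fun n : ℤ => ((Real.cos (2 * Real.pi * n * θ) : ℝ) : ℂ)) ∈ P1 := by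
  have h := combo_mem_P1 (char_mem_P1 (θ : UnitAddCircle)) (char_mem_P1 (-(θ : UnitAddCircle)))
    (a := 1 / 2) (b := 1 / 2) (by norm_num) (by norm_num) (by norm_num)
  convert h using 1
  funext n
  simp only [Pi.add_apply, Pi.smul_apply, smul_eq_mul, fourier_arg_neg]
  rw [← mul_add, Complex.add_conj, fourier_coe_apply]
  have : (2 * (Real.pi : ℂ) * Complex.I * n * θ / ((1 : ℝ) : ℂ))
      = ((2 * Real.pi * n * θ : ℝ) : ℂ) * Complex.I := by
    push_cast
    ring
  rw [this, Complex.exp_ofReal_mul_I_re]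
  push_cast
  ring

lemma exp_mem_P1 {f : ℤ → ℂ} (hf : f ∈ P1) : (fun n => Complex.exp (f n - 1)) ∈ P1 := by
  refine isClosed_P1.mem_of_tendsto (b := atTop)
    (f := fun J : ℕ => fun n => (1 + (f n - 1) / J) ^ J)
    (tendsto_pi_nhds.2 fun n => Complex.tendsto_one_add_div_pow_exp _) ?_
  filter_upwards [eventually_ge_atTop 1] with J hJ
  have hJ' : (1 : ℝ) ≤ J := by exact_mod_cast hJ
  have h := pow_mem_P1 (combo_mem_P1 one_mem_P1 hf (a := 1 - 1 / J) (b := 1 / J)
    (by rw [sub_nonneg, div_le_one (by linarith)]; exact hJ') (by positivity) (by ring)) J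
  convert h using 1
  funext n
  simp only [Pi.pow_apply, Pi.add_apply, Pi.smul_apply, smul_eq_mul, Pi.one_apply]
  push_cast
  ring

/-- Stone-Weierstrass: if the coordinate sequences lie in `B(ℤ)`, then all continuous functions
give sequences in `H(ℤ)`. -/
lemma mem_HZ_of_separating {A : Type*} [TopologicalSpace A] [CompactSpace A] (a : ℤ → A)
    {ι : Type*} (e : ι → C(A, ℂ)) (hsep : ∀ x y, (∀ i, e i x = e i y) → x = y)
    (he : ∀ i, (fun n => e i (a n)) ∈ BB) (F : C(A, ℂ)) : (fun n => F (a n)) ∈ HZ := by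
  let 𝒜 : StarSubalgebra ℂ C(A, ℂ) :=
    { carrier := {G | (fun n => G (a n)) ∈ BB}
      mul_mem' := fun {G G'} hG hG' => mul_mem_BB hG hG'
      add_mem' := fun {G G'} hG hG' => BB.add_mem hG hG'
      algebraMap_mem' := fun c => by
        have := BB.smul_mem c one_mem_BB
        have h2 : (fun n => (algebraMap ℂ C(A, ℂ) c) (a n)) = c • (1 : ℤ → ℂ) := by
          funext n
          simp
        change (fun n => (algebraMap ℂ C(A, ℂ) c) (a n)) ∈ BB
        rwa [h2]
      star_mem' := fun {G} hG => star_mem_BB hG }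
  have hs : 𝒜.SeparatesPoints := by
    intro x y hxy
    by_contra hcon
    apply hxy
    apply hsep
    intro i
    by_contra hi
    exact hcon ⟨e i, ⟨e i, he i, rfl⟩, hi⟩
  have htop := ContinuousMap.starSubalgebra_topologicalClosure_eq_top_of_separatesPoints 𝒜 hs
  intro ε hε
  have hF : F ∈ closure (𝒜 : Set C(A, ℂ)) := by
    have : F ∈ 𝒜.topologicalClosure := by rw [htop]; trivial
    exact this
  obtain ⟨G, hG, hd⟩ := Metric.mem_closure_iff.1 hF ε hε
  refine ⟨fun n => G (a n), ?_, fun n => ?_⟩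
  · rw [BZ_eq]; exact hG
  · rw [← dist_eq_norm]
    exact (ContinuousMap.dist_apply_le_dist _).trans hd.le

end Pool.Agent.H336Z.GW
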