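import Mathlib
import Pool.Agent.H336Z.GW.Alg

open MeasureTheory Filter Topology

namespace Pool.Agent.H336Z.GW

/-- the `k`-th term -/
noncomputable def tm (k : ℕ) (n : ℤ) : ℝ := Real.cos (2 * Real.pi * n * (1 / 2 ^ (k ^ 2))) - 1

lemma abs_cos_sub_one (x : ℝ) : |Real.cos x - 1| ≤ |x| := by
  have := Real.abs_cos_sub_cos_le x 0
  simpa using this

lemma inv_pow_sq_le (k : ℕ) : (1 : ℝ) / 2 ^ (k ^ 2) ≤ (1 / 2) ^ k := by
  rw [one_div_pow]
  apply one_div_le_one_div_of_le (by positivity)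
  apply pow_le_pow_right₀ (by norm_num)
  nlinarith [Nat.zero_le k, Nat.le_self_pow (two_ne_zero) k]

lemma abs_tm_le' (k : ℕ) (n : ℤ) : |tm k n| ≤ 2 * Real.pi * (|(n : ℝ)| * (1 / 2 ^ (k ^ 2))) := by
  refine (abs_cos_sub_one _).trans (le_of_eq ?_)
  rw [abs_mul, abs_mul, abs_of_pos (by positivity : (0 : ℝ) < 2 * Real.pi),
    abs_of_pos (by positivity : (0 : ℝ) < 1 / 2 ^ (k ^ 2)), mul_assoc]

lemma abs_tm_le (k : ℕ) (n : ℤ) : |tm k n| ≤ 2 * Real.pi * |(n : ℝ)| * (1 / 2) ^ k := by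
  refine (abs_tm_le' k n).trans ?_
  rw [mul_assoc (2 * Real.pi)]
  gcongr
  exact inv_pow_sq_le k

lemma summable_tm (n : ℤ) : Summable fun k => tm k n :=
  Summable.of_norm_bounded (summable_geometric_two.mul_left (2 * Real.pi * |(n : ℝ)|))
    fun k => abs_tm_le k n

lemma tm_nonpos (k : ℕ) (n : ℤ) : tm k n ≤ 0 := sub_nonpos.2 (Real.cos_le_one _)

/-- the exponent -/
noncomputable def psi (n : ℤ) : ℝ := ∑' k, tm k n

/-- the positive definite function -/
noncomputable def phi (n : ℤ) : ℝ := Real.exp (psi n)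

lemma phi_pos (n : ℤ) : 0 < phi n := Real.exp_pos _

lemma phi_le_one (n : ℤ) : phi n ≤ 1 :=
  Real.exp_le_one_iff.2 (tsum_nonpos fun k => tm_nonpos k n)

lemma phi_zero : phi 0 = 1 := by
  simp [phi, psi, tm]

lemma phi_mem_P1 : (fun n => (phi n : ℂ)) ∈ P1 := by
  refine isClosed_P1.mem_of_tendsto (b := atTop)
    (f := fun N : ℕ => fun n => ((Real.exp (∑ k ∈ Finset.range N, tm k n) : ℝ) : ℂ))
    (tendsto_pi_nhds.2 fun n => ?_) (Eventually.of_forall fun N => ?_)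
  · exact (Complex.continuous_ofReal.tendsto _).comp
      ((Real.continuous_exp.tendsto _).comp (summable_tm n).hasSum.tendsto_sum_nat)
  · induction N with
    | zero =>
      convert one_mem_P1 using 1
      funext n
      simp
    | succ N ih =>
      have h := mul_mem_P1 ih (exp_mem_P1 (cos_mem_P1 (1 / 2 ^ (N ^ 2))))
      convert h using 1
      funext n
      simp only [Finset.sum_range_succ, Real.exp_add, Pi.mul_apply, tm]
      push_cast
      ring

/-- the shifts -/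
def sh (j N : ℕ) : ℤ := 2 ^ (N ^ 2 - j)

/-- the limit constants -/
noncomputable def cc (j : ℕ) : ℝ := Real.exp (Real.cos (2 * Real.pi * (1 / 2 ^ j)) - 1)

lemma tm_shift_lt {j N k : ℕ} (hj : j ≤ N) (hk : k < N) (n s : ℤ) :
    tm k (n + s * sh j N) = tm k n := by
  have h1 : k ^ 2 + j ≤ N ^ 2 := by nlinarith
  obtain ⟨d, hd⟩ := Nat.exists_eq_add_of_le h1
  have h2 : N ^ 2 - j = k ^ 2 + d := by omega
  unfold tm sh
  rw [h2]
  have : 2 * Real.pi * ((n + s * 2 ^ (k ^ 2 + d) : ℤ) : ℝ) * (1 / 2 ^ (k ^ 2))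
      = 2 * Real.pi * n * (1 / 2 ^ (k ^ 2)) + ((s * 2 ^ d : ℤ) : ℝ) * (2 * Real.pi) := by
    push_cast
    rw [pow_add]
    field_simp
  rw [this, Real.cos_add_int_mul_two_pi]

lemma tm_shift_gt {j N k : ℕ} (hk : N < k) (n s : ℤ) (hs : |(s : ℝ)| = 1) :
    |tm k (n + s * sh j N)| ≤ 2 * Real.pi * (|(n : ℝ)| + 1) * (1 / 2) ^ k := by
  refine (abs_tm_le' _ _).trans ?_
  rw [mul_assoc (2 * Real.pi)]
  refine mul_le_mul_of_nonneg_left ?_ (by positivity)
  have h1 : |((n + s * sh j N : ℤ) : ℝ)| ≤ |(n : ℝ)| + 2 ^ (N ^ 2 - j) := by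
    unfold sh
    push_cast
    refine (abs_add_le _ _).trans (le_of_eq ?_)
    rw [abs_mul, hs, one_mul, abs_of_pos (by positivity : (0 : ℝ) < 2 ^ (N ^ 2 - j))]
  have h2 : (2 : ℝ) ^ (N ^ 2 - j) * (1 / 2 ^ (k ^ 2)) ≤ (1 / 2) ^ k := by
    have h3 : N ^ 2 - j + k ≤ k ^ 2 := by
      have : N ^ 2 + k ≤ k ^ 2 := by nlinarith
      omega
    rw [one_div_pow, mul_one_div, div_le_div_iff₀ (by positivity) (by positivity), one_mul,
      ← pow_add]
    exact pow_le_pow_right₀ (by norm_num) h3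
  calc |((n + s * sh j N : ℤ) : ℝ)| * (1 / 2 ^ (k ^ 2))
      ≤ (|(n : ℝ)| + 2 ^ (N ^ 2 - j)) * (1 / 2 ^ (k ^ 2)) := by gcongr
    _ = |(n : ℝ)| * (1 / 2 ^ (k ^ 2)) + 2 ^ (N ^ 2 - j) * (1 / 2 ^ (k ^ 2)) := by ring
    _ ≤ |(n : ℝ)| * (1 / 2) ^ k + (1 / 2) ^ k := by
      gcongr
      exact inv_pow_sq_le k
    _ = (|(n : ℝ)| + 1) * (1 / 2) ^ k := by ring

lemma tendsto_tm_diag (j : ℕ) (n s : ℤ) (hs : s = 1 ∨ s = -1) :
    Tendsto (fun N => tm N (n + s * sh j N)) atTop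
      (𝓝 (Real.cos (2 * Real.pi * (1 / 2 ^ j)) - 1)) := by
  have h0 : Tendsto (fun N : ℕ => (1 : ℝ) / 2 ^ (N ^ 2)) atTop (𝓝 0) :=
    squeeze_zero (fun N => by positivity) inv_pow_sq_le
      (tendsto_pow_atTop_nhds_zero_of_lt_one (by norm_num) (by norm_num))
  have h1 : Tendsto (fun N : ℕ => Real.cos (2 * Real.pi * n * (1 / 2 ^ (N ^ 2))
      + s * (2 * Real.pi * (1 / 2 ^ j))) - 1) atTop
      (𝓝 (Real.cos (2 * Real.pi * n * 0 + s * (2 * Real.pi * (1 / 2 ^ j))) - 1)) :=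
    ((Real.continuous_cos.tendsto _).comp ((h0.const_mul _).add_const _)).sub_const _
  have h2 : Real.cos (2 * Real.pi * n * 0 + s * (2 * Real.pi * (1 / 2 ^ j)))
      = Real.cos (2 * Real.pi * (1 / 2 ^ j)) := by
    rcases hs with rfl | rfl <;> simp
  rw [h2] at h1
  refine h1.congr' ?_
  filter_upwards [eventually_ge_atTop j] with N hN
  have h3 : j ≤ N ^ 2 := hN.trans (Nat.le_self_pow two_ne_zero N)
  obtain ⟨d, hd⟩ := Nat.exists_eq_add_of_le h3
  have h4 : N ^ 2 - j = d := by omega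
  unfold tm sh
  rw [h4, hd]
  congr 2
  push_cast
  rw [pow_add]
  field_simp

lemma tendsto_psi (j : ℕ) (n s : ℤ) (hs : s = 1 ∨ s = -1) :
    Tendsto (fun N => psi (n + s * sh j N)) atTop
      (𝓝 (Real.cos (2 * Real.pi * (1 / 2 ^ j)) - 1 + psi n)) := by
  have hs' : |(s : ℝ)| = 1 := by rcases hs with rfl | rfl <;> simp
  have h1 : ∀ N, psi (n + s * sh j N) = tm N (n + s * sh j N)
      + ∑' k, ite (k = N) 0 (tm k (n + s * sh j N)) := fun N =>
    (summable_tm _).tsum_eq_add_tsum_ite N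
  simp only [h1]
  refine (tendsto_tm_diag j n s hs).add ?_
  refine tendsto_tsum_of_dominated_convergence
    (summable_geometric_two.mul_left (2 * Real.pi * (|(n : ℝ)| + 1))) (fun k => ?_) ?_
  · refine tendsto_const_nhds.congr' ?_
    filter_upwards [eventually_ge_atTop j, eventually_gt_atTop k] with N h1 h2
    rw [if_neg h2.ne, tm_shift_lt h1 h2]
  · filter_upwards [eventually_ge_atTop j] with N hN k
    rcases lt_trichotomy k N with h | h | h
    · rw [if_neg h.ne, tm_shift_lt hN h, Real.norm_eq_abs]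
      refine (abs_tm_le k n).trans ?_
      gcongr
      linarith
    · rw [if_pos h, norm_zero]
      positivity
    · rw [if_neg h.ne', Real.norm_eq_abs]
      exact tm_shift_gt h n s hs'

lemma tendsto_phi (j : ℕ) (n s : ℤ) (hs : s = 1 ∨ s = -1) :
    Tendsto (fun N => phi (n + s * sh j N)) atTop (𝓝 (cc j * phi n)) := by
  have := (Real.continuous_exp.tendsto _).comp (tendsto_psi j n s hs)
  rwa [Real.exp_add] at this

lemma cc_pos (j : ℕ) : 0 < cc j := Real.exp_pos _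

lemma cc_lt_one {j : ℕ} (hj : 1 ≤ j) : cc j < 1 := by
  rw [cc, Real.exp_lt_one_iff, sub_neg]
  refine lt_of_lt_of_eq (Real.cos_lt_cos_of_nonneg_of_le_pi le_rfl ?_ ?_) Real.cos_zero
  · have : (1 : ℝ) / 2 ^ j ≤ 1 / 2 := by
      apply one_div_le_one_div_of_le (by norm_num)
      calc (2 : ℝ) = 2 ^ 1 := by norm_num
        _ ≤ 2 ^ j := pow_le_pow_right₀ (by norm_num) hj
    nlinarith [Real.pi_pos]
  · positivity

lemma tendsto_cc : Tendsto cc atTop (𝓝 1) := by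
  have h0 : Tendsto (fun j : ℕ => (1 : ℝ) / 2 ^ j) atTop (𝓝 0) := by
    have := tendsto_pow_atTop_nhds_zero_of_lt_one (r := (1 / 2 : ℝ)) (by norm_num) (by norm_num)
    simpa [one_div_pow] using this
  have h1 := (Real.continuous_exp.tendsto _).comp
    (((Real.continuous_cos.tendsto _).comp (h0.const_mul (2 * Real.pi))).sub_const 1)
  rw [mul_zero, Real.cos_zero, sub_self, Real.exp_zero] at h1
  exact h1

end Pool.Agent.H336Z.GW
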