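import Mathlib
import Pool.Agent.H336Z.GW.Phi

open MeasureTheory Filter Topology

namespace Pool.Agent.H336Z.GW

lemma equiv_zpow {A B : Type*} (T : Equiv.Perm A) (S : Equiv.Perm B) (π : A → B)
    (h : ∀ x, π (T x) = S (π x)) (n : ℤ) (x : A) : π ((T ^ n) x) = (S ^ n) (π x) := by
  have hi : ∀ x, π (T⁻¹ x) = S⁻¹ (π x) := by
    intro x
    rw [Equiv.Perm.eq_inv_iff_eq, ← h]
    simp
  induction n using Int.induction_on generalizing x with
  | zero => simp
  | succ n ih => rw [zpow_add_one, zpow_add_one, Equiv.Perm.mul_apply, Equiv.Perm.mul_apply, ih, h]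
  | pred n ih => rw [zpow_sub_one, zpow_sub_one, Equiv.Perm.mul_apply, Equiv.Perm.mul_apply, ih, hi]

lemma homeo_zpow_apply {A : Type*} [TopologicalSpace A] (T : A ≃ₜ A) (n : ℤ) (x : A) :
    (T ^ n) x = (T.toEquiv ^ n : Equiv.Perm A) x := by
  induction n using Int.induction_on generalizing x with
  | zero => rfl
  | succ n ih =>
    rw [zpow_add_one, zpow_add_one, Equiv.Perm.mul_apply, Homeomorph.mul_apply, ih]
    rfl
  | pred n ih =>
    rw [zpow_sub_one, zpow_sub_one, Equiv.Perm.mul_apply, Homeomorph.mul_apply, ih]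
    rfl

lemma homeo_zpow {A B : Type*} [TopologicalSpace A] [TopologicalSpace B] (T : A ≃ₜ A) (S : B ≃ₜ B)
    (π : A → B) (h : ∀ x, π (T x) = S (π x)) (n : ℤ) (x : A) : π ((T ^ n) x) = (S ^ n) (π x) := by
  rw [homeo_zpow_apply, homeo_zpow_apply]
  exact equiv_zpow T.toEquiv S.toEquiv π h n x

lemma zpow_add_apply {A : Type*} [TopologicalSpace A] (T : A ≃ₜ A) (m n : ℤ) (x : A) :
    (T ^ (m + n)) x = (T ^ m) ((T ^ n) x) := by
  rw [zpow_add, Homeomorph.mul_apply]

lemma zpow_fixed {A : Type*} [TopologicalSpace A] (T : A ≃ₜ A) {w : A} (hw : T w = w) (n : ℤ) :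
    (T ^ n) w = w := by
  have := homeo_zpow (1 : Unit ≃ₜ Unit) T (fun _ => w) (fun _ => hw.symm) n ()
  exact this.symm

/-- The collapsing property shared by all group-factors of Hilbert-representable systems. -/
def Collapse {W : Type*} [TopologicalSpace W] (S : W ≃ₜ W) : Prop :=
  ∀ (d : ℕ → ℤ) (y z w : W), Tendsto (fun k => (S ^ d k) y) atTop (𝓝 z) →
    Tendsto (fun k => (S ^ (-d k)) z) atTop (𝓝 w) → S w = w → z = w

/-- the shift -/
def shift : (ℤ → ℝ) ≃ₜ (ℤ → ℝ) where
  toFun g m := g (m + 1)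
  invFun g m := g (m - 1)
  left_inv g := by funext m; simp
  right_inv g := by funext m; simp
  continuous_toFun := by fun_prop
  continuous_invFun := by fun_prop

lemma shift_zpow (n : ℤ) (g : ℤ → ℝ) (m : ℤ) : (shift ^ n) g m = g (m + n) := by
  induction n using Int.induction_on generalizing g m with
  | zero => simp
  | succ n ih =>
    rw [zpow_add_one, Homeomorph.mul_apply, ih]
    change g (m + n + 1) = _
    rw [add_assoc]
  | pred n ih =>
    rw [zpow_sub_one, Homeomorph.mul_apply, ih]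
    change g (m + -n - 1) = _
    congr 1
    ring

/-- orbit closure under the shift -/
def orbCl (g : ℤ → ℝ) : Set (ℤ → ℝ) := closure (Set.range fun n : ℤ => (shift ^ n) g)

lemma shift_mem_iff (g x : ℤ → ℝ) : x ∈ orbCl g ↔ shift x ∈ orbCl g := by
  have h : shift '' (Set.range fun n : ℤ => (shift ^ n) g)
      = Set.range fun n : ℤ => (shift ^ n) g := by
    ext x
    constructor
    · rintro ⟨_, ⟨n, rfl⟩, rfl⟩
      refine ⟨1 + n, ?_⟩
      simp only [zpow_add_apply, zpow_one]
    · rintro ⟨n, rfl⟩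
      refine ⟨_, ⟨n - 1, rfl⟩, ?_⟩
      have : n = 1 + (n - 1) := by ring
      conv_rhs => rw [this]
      simp only [zpow_add_apply, zpow_one]
  unfold orbCl
  conv_rhs => rw [← h, ← Homeomorph.image_closure]
  exact (shift.injective.mem_set_image).symm

lemma isCompact_orbCl {g : ℤ → ℝ} (hg : ∀ n, g n ∈ Set.Icc (0 : ℝ) 1) : IsCompact (orbCl g) := by
  have hK : IsCompact (Set.univ.pi fun _ : ℤ => Set.Icc (0 : ℝ) 1) :=
    isCompact_univ_pi fun _ => isCompact_Icc
  refine hK.of_isClosed_subset isClosed_closure (closure_minimal ?_ hK.isClosed)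
  rintro _ ⟨n, rfl⟩ m _
  simp only [shift_zpow]
  exact hg _

/-- cut-off -/
noncomputable def cut (t : ℝ) : ℝ := max (t - 1 / 2) 0

lemma continuous_cut : Continuous cut := by
  unfold cut
  fun_prop

/-- the points `cut (t φ)` -/
noncomputable def yy (t : ℝ) : ℤ → ℝ := fun n => cut (t * phi n)

/-- the space -/
def YY : Type := orbCl (yy 1)

instance : TopologicalSpace YY := inferInstanceAs (TopologicalSpace (orbCl (yy 1)))

instance : T2Space YY := inferInstanceAs (T2Space (orbCl (yy 1)))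

instance : CompactSpace YY := by
  refine isCompact_iff_compactSpace.1 (isCompact_orbCl fun n => ⟨le_max_right _ _, ?_⟩)
  refine max_le ?_ zero_le_one
  have := phi_le_one n
  linarith

lemma metrizable_YY : TopologicalSpace.MetrizableSpace YY :=
  inferInstanceAs (TopologicalSpace.MetrizableSpace (orbCl (yy 1)))

/-- the homeomorphism -/
def TY : YY ≃ₜ YY := shift.subtype (shift_mem_iff (yy 1))

/-- underlying sequence -/
def YY.val (y : YY) : ℤ → ℝ := Subtype.val y

lemma TY_zpow (n : ℤ) (y : YY) : ((TY ^ n) y).val = (shift ^ n) y.val :=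
  homeo_zpow TY shift YY.val (fun _ => rfl) n y

lemma tendsto_YY {ι : Type*} {l : Filter ι} {f : ι → YY} {y : YY} :
    Tendsto f l (𝓝 y) ↔ Tendsto (fun i => (f i).val) l (𝓝 y.val) := tendsto_subtype_rng

/-- the base point -/
noncomputable def y0 : YY := ⟨yy 1, subset_closure ⟨0, by simp⟩⟩

lemma y0_transitive : IsTransitivePoint TY y0 := by
  have h : Dense (Subtype.val ⁻¹' (Set.range fun n : ℤ => (shift ^ n) (yy 1)) :
      Set (orbCl (yy 1))) := by
    rw [Subtype.dense_iff]
    have h1 : orbCl (yy 1) ∩ (Set.range fun n : ℤ => (shift ^ n) (yy 1))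
        = Set.range fun n : ℤ => (shift ^ n) (yy 1) := Set.inter_eq_right.2 subset_closure
    rw [Subtype.image_preimage_coe, h1]
    exact subset_rfl
  refine h.mono ?_
  rintro y ⟨n, hn⟩
  exact ⟨n, Subtype.ext ((TY_zpow n y0).trans hn)⟩

lemma tendsto_yy (j : ℕ) (t : ℝ) (s : ℤ) (hs : s = 1 ∨ s = -1) :
    Tendsto (fun N => (shift ^ (s * sh j N)) (yy t)) atTop (𝓝 (yy (t * cc j))) := by
  refine tendsto_pi_nhds.2 fun n => ?_
  simp only [shift_zpow, yy]
  have := (continuous_cut.tendsto _).comp ((tendsto_phi j n s hs).const_mul t)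
  rwa [← mul_assoc] at this

lemma zpow_mem (n : ℤ) {x : ℤ → ℝ} (hx : x ∈ orbCl (yy 1)) : (shift ^ n) x ∈ orbCl (yy 1) := by
  have := ((TY ^ n) ⟨x, hx⟩).2
  rw [← show ((TY ^ n) ⟨x, hx⟩).val = (shift ^ n) x from TY_zpow n ⟨x, hx⟩]
  exact this

lemma yy_mem (j m : ℕ) : yy (cc j ^ m) ∈ orbCl (yy 1) := by
  induction m with
  | zero => rw [pow_zero]; exact y0.2
  | succ m ih =>
    rw [pow_succ]
    exact isClosed_closure.mem_of_tendsto (tendsto_yy j _ 1 (Or.inl rfl))
      (Eventually.of_forall fun N => zpow_mem _ ih)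

/-- the points `cut (c^m φ)` of the space -/
noncomputable def pt (j m : ℕ) : YY := ⟨yy (cc j ^ m), yy_mem j m⟩

lemma tendsto_pt (j m : ℕ) (s : ℤ) (hs : s = 1 ∨ s = -1) :
    Tendsto (fun N => (TY ^ (s * sh j N)) (pt j m)) atTop (𝓝 (pt j (m + 1))) := by
  rw [tendsto_YY]
  simp only [TY_zpow]
  have := tendsto_yy j (cc j ^ m) s hs
  rwa [← pow_succ] at this

lemma yy_small {t : ℝ} (h0 : 0 ≤ t) (ht : t ≤ 1 / 2) : yy t = 0 := by
  funext n
  have h1 := phi_le_one n
  have h2 := phi_pos n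
  exact max_eq_right (by nlinarith)

lemma exists_pt_zero {j : ℕ} (hj : 1 ≤ j) : ∃ M, (pt j M).val = 0 := by
  obtain ⟨M, hM⟩ := exists_pow_lt_of_lt_one (show (0 : ℝ) < 1 / 2 by norm_num) (cc_lt_one hj)
  exact ⟨M, yy_small (pow_pos (cc_pos j) M).le hM.le⟩

/-- the fixed point -/
noncomputable def yz : YY :=
  ⟨0, by obtain ⟨M, hM⟩ := exists_pt_zero (le_refl 1); rw [← hM]; exact (pt 1 M).2⟩

lemma TY_yz : TY yz = yz := Subtype.ext rfl

lemma tendsto_pt_one : Tendsto (fun j => pt j 1) atTop (𝓝 y0) := by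
  rw [tendsto_YY]
  refine tendsto_pi_nhds.2 fun n => ?_
  have := (continuous_cut.tendsto _).comp (tendsto_cc.mul_const (phi n))
  refine this.congr fun j => ?_
  change cut (cc j * phi n) = cut (cc j ^ 1 * phi n)
  rw [pow_one]

lemma pt_one_ne {j : ℕ} (hj : 1 ≤ j) : pt j 1 ≠ y0 := by
  intro h
  have h1 : cut (cc j ^ 1 * phi 0) = cut (1 * phi 0) := congrFun (congrArg YY.val h) 0
  rw [phi_zero, pow_one, mul_one, mul_one, cut, cut] at h1
  have h2 := cc_lt_one hj
  have h3 : max (cc j - 1 / 2) 0 < max ((1 : ℝ) - 1 / 2) 0 :=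
    lt_of_lt_of_le (max_lt (by linarith) (by norm_num)) (le_max_left (1 - 1 / 2) 0)
  exact h3.ne h1

lemma YY_no_isolated (x : YY) : ¬ IsOpen ({x} : Set YY) := by
  intro hx
  obtain ⟨n, hn⟩ := y0_transitive.exists_mem_open hx ⟨x, rfl⟩
  have h1 : IsOpen ((TY ^ n) ⁻¹' {x}) := hx.preimage (TY ^ n).continuous
  have h2 := tendsto_pt_one (h1.mem_nhds hn)
  obtain ⟨j, hj, hj'⟩ := ((eventually_ge_atTop 1).and h2).exists
  apply pt_one_ne hj
  apply (TY ^ n).injective
  exact (Set.mem_singleton_iff.1 hj').trans (Set.mem_singleton_iff.1 hn).symm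

lemma YY_recurrent : RecurrentTransitive TY := ⟨⟨y0, y0_transitive⟩, YY_no_isolated⟩

lemma YY_orbitAlgebra : orbitAlgebra TY y0 ⊆ HZ := by
  rintro _ ⟨F, rfl⟩
  have : CompactSpace (orbCl phi) :=
    isCompact_iff_compactSpace.1 (isCompact_orbCl fun n => ⟨(phi_pos n).le, phi_le_one n⟩)
  let G : (ℤ → ℝ) → (ℤ → ℝ) := fun x n => cut (x n)
  have hG : Continuous G := continuous_pi fun n => continuous_cut.comp (continuous_apply n)
  have hGn : ∀ n : ℤ, G ((shift ^ n) phi) = (shift ^ n) (yy 1) := by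
    intro n
    funext m
    simp only [G, shift_zpow, yy, one_mul]
  have hmap : ∀ x ∈ orbCl phi, G x ∈ orbCl (yy 1) := by
    intro x hx
    refine map_mem_closure hG hx ?_
    rintro _ ⟨n, rfl⟩
    exact ⟨n, (hGn n).symm⟩
  let G' : C(orbCl phi, YY) :=
    ⟨fun x => ⟨G x, hmap x x.2⟩, (hG.comp continuous_subtype_val).subtype_mk _⟩
  let a : ℤ → orbCl phi := fun n => ⟨(shift ^ n) phi, subset_closure ⟨n, rfl⟩⟩
  let e : ℤ → C(orbCl phi, ℂ) := fun m => ⟨fun x => ((x.1 m : ℝ) : ℂ),
    Complex.continuous_ofReal.comp ((continuous_apply m).comp continuous_subtype_val)⟩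
  have key := mem_HZ_of_separating a e ?_ ?_ (F.comp G')
  · have h2 : (fun n : ℤ => F ((TY ^ n) y0)) = fun n => (F.comp G') (a n) := by
      funext n
      rw [ContinuousMap.comp_apply]
      congr 1
      apply Subtype.ext
      exact (TY_zpow n y0).trans (hGn n).symm
    rwa [h2]
  · intro x y h
    apply Subtype.ext
    funext m
    exact Complex.ofReal_injective (h m)
  · intro m
    have := translate_mem_BB (P1_mem_BB phi_mem_P1) m
    convert this using 2 with n
    change (((shift ^ n) phi m : ℝ) : ℂ) = _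
    rw [shift_zpow]

lemma YY_hilbert : IsHilbertSystem TY := ⟨y0, y0_transitive, YY_orbitAlgebra⟩

/-- Every factor of the example with the collapsing property is trivial. -/
theorem subsingleton_of_collapse {W : Type*} [TopologicalSpace W] [T2Space W] {S : W ≃ₜ W}
    {ρ : YY → W} (hρ : IsFactorMap TY S ρ) (hS : Collapse S) : Subsingleton W := by
  obtain ⟨hc, hsurj, heq⟩ := hρ
  have hw : S (ρ yz) = ρ yz := by rw [← heq, TY_yz]
  have step : ∀ j m, ρ (pt j (m + 2)) = ρ yz → ρ (pt j (m + 1)) = ρ yz := by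
    intro j m h
    refine hS (fun N => 1 * sh j N) (ρ (pt j m)) _ _ ?_ ?_ hw
    · have := (hc.tendsto _).comp (tendsto_pt j m 1 (Or.inl rfl))
      exact this.congr fun N => homeo_zpow TY S ρ heq _ _
    · have := (hc.tendsto _).comp (tendsto_pt j (m + 1) (-1) (Or.inr rfl))
      rw [h] at this
      refine this.congr fun N => ?_
      rw [show -(1 * sh j N) = -1 * sh j N by ring]
      exact homeo_zpow TY S ρ heq _ _
  have down : ∀ j m, ρ (pt j (m + 1)) = ρ yz → ρ (pt j 1) = ρ yz := by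
    intro j m
    induction m with
    | zero => exact id
    | succ m ih => exact fun h => ih (step j m h)
  have h1 : ∀ j, 1 ≤ j → ρ (pt j 1) = ρ yz := by
    intro j hj
    obtain ⟨M, hM⟩ := exists_pow_lt_of_lt_one (show (0 : ℝ) < 1 / 2 by norm_num) (cc_lt_one hj)
    apply down j M
    congr 1
    apply Subtype.ext
    refine yy_small (pow_pos (cc_pos j) _).le ?_
    rw [pow_succ]
    nlinarith [cc_lt_one hj, pow_pos (cc_pos j) M]
  have h2 : ρ y0 = ρ yz := by
    refine tendsto_nhds_unique ((hc.tendsto _).comp tendsto_pt_one) ?_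
    refine tendsto_const_nhds.congr' ?_
    filter_upwards [eventually_ge_atTop 1] with j hj
    exact (h1 j hj).symm
  have h3 : ∀ y, ρ y = ρ yz := by
    intro y
    refine y0_transitive.induction_on (p := fun y => ρ y = ρ yz) y
      (isClosed_eq hc continuous_const) fun n => ?_
    rw [homeo_zpow TY S ρ heq, h2, zpow_fixed S hw]
  constructor
  intro a b
  obtain ⟨a, rfl⟩ := hsurj a
  obtain ⟨b, rfl⟩ := hsurj b
  rw [h3 a, h3 b]

end Pool.Agent.H336Z.GW
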