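import Mathlib
import Pool.Agent.H336Z.GW.Sys

open MeasureTheory Filter Topology ComplexConjugate

namespace Pool.Agent.H336Z.GW

section weak

variable {H : Type*} [NormedAddCommGroup H] [InnerProductSpace ℂ H]

lemma continuous_inner_weak (η : H) :
    Continuous fun v : WeakSpace ℂ H => inner ℂ η ((toWeakSpace ℂ H).symm v) :=
  WeakBilin.eval_continuous (topDualPairing ℂ H).flip (innerSL ℂ η)

lemma continuous_weak_of [CompleteSpace H] {A : Type*} [TopologicalSpace A] {g : A → WeakSpace ℂ H}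
    (h : ∀ η : H, Continuous fun a => inner ℂ η ((toWeakSpace ℂ H).symm (g a))) :
    Continuous g := by
  refine WeakBilin.continuous_of_continuous_eval _ fun l => ?_
  have := h ((InnerProductSpace.toDual ℂ H).symm l)
  simp only [InnerProductSpace.toDual_symm_apply] at this
  exact this

lemma unitary_zpow_apply (U : H ≃ₗᵢ[ℂ] H) (n : ℤ) (x : H) :
    (U ^ n) x = (U.toEquiv ^ n : Equiv.Perm H) x := by
  induction n using Int.induction_on generalizing x with
  | zero => rfl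
  | succ n ih =>
    rw [zpow_add_one, zpow_add_one, Equiv.Perm.mul_apply, LinearIsometryEquiv.coe_mul,
      Function.comp_apply, ih]
    rfl
  | pred n ih =>
    rw [zpow_sub_one, zpow_sub_one, Equiv.Perm.mul_apply, LinearIsometryEquiv.coe_mul,
      Function.comp_apply, ih]
    rfl

lemma rep_zpow {A : Type*} [TopologicalSpace A] (T : A ≃ₜ A) (U : H ≃ₗᵢ[ℂ] H) (α : A → H)
    (h : ∀ x, α (T x) = U (α x)) (n : ℤ) (x : A) : α ((T ^ n) x) = (U ^ n) (α x) := by
  rw [homeo_zpow_apply, unitary_zpow_apply]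
  exact equiv_zpow T.toEquiv U.toEquiv α h n x

lemma uzpow_add_apply (U : H ≃ₗᵢ[ℂ] H) (m n : ℤ) (x : H) :
    (U ^ (m + n)) x = (U ^ m) ((U ^ n) x) := by
  rw [zpow_add, LinearIsometryEquiv.coe_mul, Function.comp_apply]

lemma inner_zpow (U : H ≃ₗᵢ[ℂ] H) (n : ℤ) (a b : H) :
    inner ℂ ((U ^ n) a) b = inner ℂ a ((U ^ (-n)) b) := by
  rw [← (U ^ (-n)).inner_map_map ((U ^ n) a) b, ← uzpow_add_apply, neg_add_cancel, zpow_zero]
  rfl

end weak

lemma rep_of_hilbertRepresentable {X : Type*} [TopologicalSpace X] {T : X ≃ₜ X}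
    {H : Type*} [NormedAddCommGroup H] [InnerProductSpace ℂ H] (U : H ≃ₗᵢ[ℂ] H)
    {Z : Set (WeakSpace ℂ H)} (e : X ≃ₜ Z) (he : ∀ x : X,
      (e (T x) : WeakSpace ℂ H) = toWeakSpace ℂ H (U ((toWeakSpace ℂ H).symm (e x)))) :
    ∃ α : X → H, (∀ η, Continuous fun x => inner ℂ η (α x)) ∧ Function.Injective α ∧
      ∀ x, α (T x) = U (α x) := by
  refine ⟨fun x => (toWeakSpace ℂ H).symm (e x), fun η => ?_, ?_, fun x => ?_⟩
  · exact (continuous_inner_weak η).comp (continuous_subtype_val.comp e.continuous)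
  · exact (toWeakSpace ℂ H).symm.injective.comp (Subtype.val_injective.comp e.injective)
  · simp only [he x, LinearEquiv.symm_apply_apply]

theorem collapse_of_rep {X W H : Type*} [TopologicalSpace X] [CompactSpace X]
    [TopologicalSpace W] [T2Space W] [NormedAddCommGroup H] [InnerProductSpace ℂ H]
    {T : X ≃ₜ X} {S : W ≃ₜ W} {π : X → W} (hπ : IsFactorMap T S π)
    (U : H ≃ₗᵢ[ℂ] H) (α : X → H) (hα : ∀ η, Continuous fun x => inner ℂ η (α x))
    (hinj : Function.Injective α) (heq : ∀ x, α (T x) = U (α x))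
    (hfib : ∀ w, S w = w → ∀ (𝒰 : Ultrafilter ℕ) (d : ℕ → ℤ) (m m1 m2 : X), π m = w →
      Tendsto (fun k => (T ^ d k) m) 𝒰 (𝓝 m1) → Tendsto (fun k => (T ^ (-d k)) m1) 𝒰 (𝓝 m2) →
      m2 = m) : Collapse S := by
  intro d y z w h1 h2 hw
  obtain ⟨hc, hsurj, hπ⟩ := hπ
  let 𝒰 : Ultrafilter ℕ := Ultrafilter.of atTop
  have h𝒰 : (𝒰 : Filter ℕ) ≤ atTop := Ultrafilter.of_le _
  have hlim : ∀ (e : ℕ → ℤ) (x : X), ∃ x', Tendsto (fun k => (T ^ e k) x) 𝒰 (𝓝 x') := by
    intro e x
    obtain ⟨x', -, hx'⟩ := isCompact_univ.ultrafilter_le_nhds (𝒰.map fun k => (T ^ e k) x)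
      (by simp)
    exact ⟨x', hx'⟩
  choose L hL using hlim
  let p : X → X := L d
  let q : X → X := L fun k => -d k
  have adj : ∀ x x', inner ℂ (α (p x)) (α x') = inner ℂ (α x) (α (q x')) := by
    intro x x'
    have e1 : Tendsto (fun k => inner ℂ (α ((T ^ d k) x)) (α x')) 𝒰
        (𝓝 (inner ℂ (α (p x)) (α x'))) := by
      have := (Complex.continuous_conj.tendsto _).comp (((hα (α x')).tendsto _).comp (hL d x))
      simp only [inner_conj_symm] at this
      refine this.congr fun k => ?_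
      simp only [Function.comp_apply, inner_conj_symm]
    have e2 : Tendsto (fun k => inner ℂ (α x) (α ((T ^ (-d k)) x'))) 𝒰
        (𝓝 (inner ℂ (α x) (α (q x')))) := ((hα (α x)).tendsto _).comp (hL (fun k => -d k) x')
    refine tendsto_nhds_unique e1 (e2.congr fun k => ?_)
    rw [rep_zpow T U α heq, rep_zpow T U α heq, inner_zpow]
  have hπL : ∀ (e : ℕ → ℤ) (x : X) (v : W), Tendsto (fun k => (S ^ e k) (π x)) 𝒰 (𝓝 v) →
      π (L e x) = v := by
    intro e x v hv
    refine tendsto_nhds_unique ((hc.tendsto _).comp (hL e x)) (hv.congr fun k => ?_)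
    exact (homeo_zpow T S π hπ _ _).symm
  obtain ⟨x0, rfl⟩ := hsurj y
  have a1 : π (p x0) = z := hπL d x0 z (h1.mono_left h𝒰)
  have a2 : π (q (p x0)) = w := hπL _ _ w (by rw [a1]; exact h2.mono_left h𝒰)
  set m := q (p x0) with hm
  have a3 : π (p m) = w := hπL d m w (by
    simp only [a2, zpow_fixed S hw]
    exact tendsto_const_nhds)
  have a4 : q (p m) = m := hfib w hw 𝒰 d m (p m) (q (p m)) a2 (hL d m) (hL _ (p m))
  have a5 : inner ℂ (α (p x0) - α (p m)) (α (p x0) - α (p m)) = 0 := by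
    rw [inner_sub_left, inner_sub_right, inner_sub_right, adj, adj, adj, adj, a4, ← hm]
    ring
  have a6 : p x0 = p m := hinj (sub_eq_zero.1 (inner_self_eq_zero.1 a5))
  rw [← a1, a6, a3]

theorem collapse_of_hilbertRepresentable {W : Type*} [TopologicalSpace W] [CompactSpace W]
    [T2Space W] {S : W ≃ₜ W} (h : HilbertRepresentable S) : Collapse S := by
  obtain ⟨-, @⟨H, _, _, _, U⟩, Z, -, -, e, he⟩ := h
  obtain ⟨α, h1, h2, h3⟩ := rep_of_hilbertRepresentable U e he
  refine collapse_of_rep (π := id) ⟨continuous_id, Function.surjective_id, fun _ => rfl⟩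
    U α h1 h2 h3 ?_
  rintro w hw 𝒰 d m m1 m2 rfl a1 a2
  simp only [id] at hw
  simp only [zpow_fixed S hw] at a1
  have b1 : m = m1 := tendsto_nhds_unique tendsto_const_nhds a1
  subst b1
  simp only [zpow_fixed S hw] at a2
  exact (tendsto_nhds_unique tendsto_const_nhds a2).symm

theorem collapse_of_groupFactor {X W : Type*} [TopologicalSpace X] [CompactSpace X] [T2Space X]
    [TopologicalSpace W] [T2Space W] {T : X ≃ₜ X} {S : W ≃ₜ W}
    (h : HilbertRepresentable T) (hg : IsGroupFactor T S) : Collapse S := by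
  obtain ⟨-, @⟨H, _, _, _, U⟩, Z, -, -, e, he⟩ := h
  obtain ⟨α, h1, h2, h3⟩ := rep_of_hilbertRepresentable U e he
  obtain ⟨K, hK, hcomm, f, hf⟩ := hg
  let π : X → W := fun x => f (Quotient.mk (orbitSetoid K) x)
  have hπ : IsFactorMap T S π :=
    ⟨f.continuous.comp continuous_quotient_mk', f.surjective.comp Quotient.mk_surjective, hf⟩
  refine collapse_of_rep hπ U α h1 h2 h3 ?_
  intro w hw 𝒰 d m m1 m2 hm a1 a2
  have b1 : π m = π (T m) := by rw [hπ.2.2, hm, hw]
  obtain ⟨k0, hk0, b2⟩ : ∃ k ∈ K, k m = T m := Quotient.exact (f.injective b1)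
  have hcz : ∀ k ∈ K, ∀ (n : ℤ) (x : X), k ((T ^ n) x) = (T ^ n) (k x) := by
    intro k hk n x
    have := ((hcomm k hk).zpow_right n).eq
    rw [← Homeomorph.mul_apply, this, Homeomorph.mul_apply]
  have b3 : ∀ n : ℤ, (T ^ n) m = (k0 ^ n) m := by
    intro n
    induction n using Int.induction_on with
    | zero => rfl
    | succ n ih =>
      rw [zpow_add_one, Homeomorph.mul_apply, ← b2, ← hcz k0 hk0, ih, add_comm, zpow_one_add,
        Homeomorph.mul_apply]
    | pred n ih =>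
      apply k0.injective
      rw [hcz k0 hk0, b2, ← Homeomorph.mul_apply, ← zpow_add_one, sub_add_cancel, ih,
        ← Homeomorph.mul_apply, ← zpow_one_add]
      congr 2
      ring
  obtain ⟨_, ⟨κ, hκ, rfl⟩, b4⟩ := hK.ultrafilter_le_nhds
    (𝒰.map fun k => ((k0 ^ d k : X ≃ₜ X) : C(X, X))) (by
      rw [Ultrafilter.coe_map, le_principal_iff, mem_map]
      exact Eventually.of_forall fun k => ⟨_, K.zpow_mem hk0 _, rfl⟩)
  have b5 : Tendsto (fun k => ((k0 ^ d k : X ≃ₜ X) : C(X, X))) 𝒰 (𝓝 (κ : C(X, X))) := b4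
  have b6 : m1 = κ m := by
    refine tendsto_nhds_unique a1 ?_
    have := ((continuous_eval_const m).tendsto (κ : C(X, X))).comp b5
    exact this.congr fun k => (b3 _).symm
  have b7 : Tendsto (fun k => (T ^ (-d k)) m) 𝒰 (𝓝 (κ.symm m2)) := by
    have := (κ.symm.continuous.tendsto _).comp a2
    refine this.congr fun k => ?_
    rw [Function.comp_apply, b6, ← hcz κ hκ, κ.symm_apply_apply]
  have b8 : Tendsto (fun k => ((k0 ^ d k : X ≃ₜ X) : C(X, X)) ((T ^ (-d k)) m)) 𝒰
      (𝓝 ((κ : C(X, X)) (κ.symm m2))) :=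
    (continuous_eval.tendsto ((κ : C(X, X)), κ.symm m2)).comp (b5.prodMk_nhds b7)
  have b9 : ∀ k, ((k0 ^ d k : X ≃ₜ X) : C(X, X)) ((T ^ (-d k)) m) = m := by
    intro k
    change (k0 ^ d k) ((T ^ (-d k)) m) = m
    rw [b3, ← zpow_add_apply, add_neg_cancel, zpow_zero]
    rfl
  simp only [b9] at b8
  have := tendsto_nhds_unique tendsto_const_nhds b8
  rw [this]
  exact (κ.apply_symm_apply m2).symm

end Pool.Agent.H336Z.GW
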