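import Mathlib
import Pool.Agent.H336Z.GW.Collapse

open MeasureTheory Filter Topology ComplexConjugate

namespace Pool.Agent.H336Z.GW

universe w

section graph

variable {A B : Type*} [TopologicalSpace A] [TopologicalSpace B]

/-- closure of the joint orbit -/
def joint (T : A ≃ₜ A) (S : B ≃ₜ B) (a : A) (b : B) : Set (A × B) :=
  closure (Set.range fun n : ℤ => ((T ^ n) a, (S ^ n) b))

lemma joint_step {T : A ≃ₜ A} {S : B ≃ₜ B} {a : A} {b : B} {x : A} {y : B}
    (h : (x, y) ∈ joint T S a b) : (T x, S y) ∈ joint T S a b := by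
  refine map_mem_closure (f := Prod.map T S) (T.continuous.prodMap S.continuous) h ?_
  rintro _ ⟨n, rfl⟩
  refine ⟨1 + n, ?_⟩
  simp only [zpow_add_apply, zpow_one, Prod.map_apply]

theorem exists_pointed_factor [CompactSpace A] [CompactSpace B] [T2Space B]
    {T : A ≃ₜ A} {S : B ≃ₜ B} {a : A} {b : B}
    (ha : IsTransitivePoint T a) (hb : IsTransitivePoint S b)
    (huniq : ∀ x y y', (x, y) ∈ joint T S a b → (x, y') ∈ joint T S a b → y = y') :
    ∃ π : A → B, IsFactorMap T S π ∧ π a = b ∧ ∀ x, (x, π x) ∈ joint T S a b := by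
  have hcl : IsClosed (joint T S a b) := isClosed_closure
  have hmem : ∀ n : ℤ, ((T ^ n) a, (S ^ n) b) ∈ joint T S a b := fun n => subset_closure ⟨n, rfl⟩
  have hex : ∀ x, ∃ y, (x, y) ∈ joint T S a b := by
    intro x
    have h1 : IsClosed (Prod.fst '' joint T S a b) := isClosedMap_fst_of_compactSpace _ hcl
    have h2 : x ∈ Prod.fst '' joint T S a b :=
      ha.induction_on (p := fun x => x ∈ Prod.fst '' joint T S a b) x h1
        fun n => ⟨_, hmem n, rfl⟩
    obtain ⟨⟨x', y⟩, h3, rfl⟩ := h2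
    exact ⟨y, h3⟩
  choose π hπ using hex
  have hc : Continuous π := by
    refine continuous_iff_isClosed.2 fun C hC => ?_
    have h1 : π ⁻¹' C = Prod.fst '' (joint T S a b ∩ Prod.snd ⁻¹' C) := by
      ext x
      constructor
      · intro hx
        exact ⟨(x, π x), ⟨hπ x, hx⟩, rfl⟩
      · rintro ⟨⟨x', y⟩, ⟨h2, h3⟩, rfl⟩
        have := huniq x' y (π x') h2 (hπ x')
        change π x' ∈ C
        rw [← this]
        exact h3
    rw [h1]
    exact isClosedMap_fst_of_compactSpace _ (hcl.inter (hC.preimage continuous_snd))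
  have hn : ∀ n : ℤ, π ((T ^ n) a) = (S ^ n) b := fun n => huniq _ _ _ (hπ _) (hmem n)
  refine ⟨π, ⟨hc, fun y => ?_, fun x => huniq _ _ _ (hπ _) (joint_step (hπ x))⟩, ?_, hπ⟩
  · exact hb.induction_on (p := fun y => y ∈ Set.range π) y (isCompact_range hc).isClosed
      fun n => ⟨_, hn n⟩
  · simpa using hn 0

theorem almostOneOne_of [CompactSpace A] [TopologicalSpace.MetrizableSpace A] [T2Space B]
    {T : A ≃ₜ A} {S : B ≃ₜ B} {π : A → B} (hπ : IsFactorMap T S π) {a : A}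
    (ha : IsTransitivePoint T a) (h : ∀ x, π x = π a → x = a) : AlmostOneOne π := by
  letI := TopologicalSpace.metrizableSpaceMetric A
  let C : ℕ → Set (A × A) := fun k => {p | π p.1 = π p.2 ∧ 1 / ((k : ℝ) + 1) ≤ dist p.1 p.2}
  have hC : ∀ k, IsClosed (C k) := fun k =>
    (isClosed_eq (hπ.1.comp continuous_fst) (hπ.1.comp continuous_snd)).inter
      (isClosed_le continuous_const continuous_dist)
  have key : ∀ x, x ∈ ⋂ k, (Prod.fst '' C k)ᶜ ↔ π ⁻¹' {π x} = {x} := by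
    intro x
    rw [Set.mem_iInter]
    constructor
    · intro hx
      ext x'
      simp only [Set.mem_preimage, Set.mem_singleton_iff]
      refine ⟨fun hx' => ?_, fun hx' => by rw [hx']⟩
      by_contra hne
      obtain ⟨k, hk⟩ := exists_nat_one_div_lt (dist_pos.2 (Ne.symm hne))
      exact hx k ⟨(x, x'), ⟨hx'.symm, hk.le⟩, rfl⟩
    · rintro hx k ⟨⟨x1, x'⟩, ⟨h1, h2⟩, rfl⟩
      have h3 : x' ∈ π ⁻¹' {π x1} := h1.symm
      rw [hx, Set.mem_singleton_iff] at h3
      simp only [h3, dist_self] at h2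
      have : (0 : ℝ) < 1 / ((k : ℝ) + 1) := by positivity
      linarith
  refine ⟨⋂ k, (Prod.fst '' C k)ᶜ, IsGδ.iInter_of_isOpen fun k =>
    (isClosedMap_fst_of_compactSpace _ (hC k)).isOpen_compl, ha.mono ?_, fun x hx => (key x).1 hx⟩
  rintro _ ⟨n, rfl⟩
  rw [key]
  ext x
  simp only [Set.mem_preimage, Set.mem_singleton_iff]
  refine ⟨fun hx => ?_, fun hx => by rw [hx]⟩
  have h1 : π ((T ^ (-n)) x) = π a := by
    rw [homeo_zpow T S π hπ.2.2, hx, ← homeo_zpow T S π hπ.2.2, ← zpow_add_apply, neg_add_cancel,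
      zpow_zero]
    rfl
  rw [← h _ h1, ← zpow_add_apply, add_neg_cancel, zpow_zero]
  rfl

end graph

section orbit

variable {H : Type w} [NormedAddCommGroup H] [InnerProductSpace ℂ H] [CompleteSpace H]

lemma isCompact_weak_ball (r : ℝ) :
    IsCompact {v : WeakSpace ℂ H | ‖(toWeakSpace ℂ H).symm v‖ ≤ r} := by
  let g : WeakDual ℂ H → WeakSpace ℂ H := fun l =>
    toWeakSpace ℂ H ((InnerProductSpace.toDual ℂ H).symm (WeakDual.toStrongDual l))
  have hg : Continuous g := by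
    refine continuous_weak_of fun η => ?_
    have : (fun l => inner ℂ η ((toWeakSpace ℂ H).symm (g l))) = fun l => conj (l η) := by
      funext l
      simp only [g, LinearEquiv.symm_apply_apply]
      rw [← inner_conj_symm, InnerProductSpace.toDual_symm_apply]
      rfl
    rw [this]
    exact Complex.continuous_conj.comp (WeakDual.eval_continuous η)
  have h := (WeakDual.isCompact_closedBall (0 : StrongDual ℂ H) r).image hg
  convert h using 1
  ext v
  constructor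
  · intro hv
    refine ⟨StrongDual.toWeakDual (InnerProductSpace.toDual ℂ H ((toWeakSpace ℂ H).symm v)), ?_, ?_⟩
    · simp only [Set.mem_preimage, StrongDual.toStrongDual_toWeakDual, mem_closedBall_zero_iff,
        LinearIsometryEquiv.norm_map]
      exact hv
    · simp [g]
  · rintro ⟨l, hl, rfl⟩
    simp only [Set.mem_preimage, mem_closedBall_zero_iff] at hl
    simp only [g, Set.mem_setOf_eq, LinearEquiv.symm_apply_apply, LinearIsometryEquiv.norm_map]
    exact hl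

/-- a unitary as a homeomorphism for the weak topology -/
noncomputable def weakH (U : H ≃ₗᵢ[ℂ] H) : WeakSpace ℂ H ≃ₜ WeakSpace ℂ H where
  toFun v := toWeakSpace ℂ H (U ((toWeakSpace ℂ H).symm v))
  invFun v := toWeakSpace ℂ H (U.symm ((toWeakSpace ℂ H).symm v))
  left_inv v := by simp
  right_inv v := by simp
  continuous_toFun := continuous_weak_of fun η => by
    simp only [LinearEquiv.symm_apply_apply]
    have := continuous_inner_weak (U.symm η)
    refine this.congr fun v => ?_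
    rw [← U.inner_map_map, U.apply_symm_apply]
  continuous_invFun := continuous_weak_of fun η => by
    simp only [LinearEquiv.symm_apply_apply]
    have := continuous_inner_weak (U η)
    refine this.congr fun v => ?_
    rw [← U.inner_map_map η, U.apply_symm_apply]

lemma weakH_zpow (U : H ≃ₗᵢ[ℂ] H) (n : ℤ) (v : WeakSpace ℂ H) :
    (toWeakSpace ℂ H).symm ((weakH U ^ n) v) = (U ^ n) ((toWeakSpace ℂ H).symm v) :=
  rep_zpow (weakH U) U (toWeakSpace ℂ H).symm (fun _ => rfl) n v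

/-- weak closure of an orbit -/
def ZZ (U : H ≃ₗᵢ[ℂ] H) (ξ : H) : Set (WeakSpace ℂ H) :=
  closure (Set.range fun n : ℤ => (weakH U ^ n) (toWeakSpace ℂ H ξ))

lemma image_ZZ (U : H ≃ₗᵢ[ℂ] H) (ξ : H) : weakH U '' ZZ U ξ = ZZ U ξ := by
  unfold ZZ
  rw [Homeomorph.image_closure]
  congr 1
  ext x
  constructor
  · rintro ⟨_, ⟨n, rfl⟩, rfl⟩
    refine ⟨1 + n, ?_⟩
    simp only [zpow_add_apply, zpow_one]
  · rintro ⟨n, rfl⟩
    refine ⟨_, ⟨n - 1, rfl⟩, ?_⟩
    have : n = 1 + (n - 1) := by ring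
    conv_rhs => rw [this]
    simp only [zpow_add_apply, zpow_one]

lemma ZZ_subset (U : H ≃ₗᵢ[ℂ] H) (ξ : H) :
    ZZ U ξ ⊆ {v : WeakSpace ℂ H | ‖(toWeakSpace ℂ H).symm v‖ ≤ ‖ξ‖} := by
  refine closure_minimal ?_ (isCompact_weak_ball _).isClosed
  rintro _ ⟨n, rfl⟩
  simp only [Set.mem_setOf_eq, weakH_zpow, LinearIsometryEquiv.norm_map,
    LinearEquiv.symm_apply_apply, le_refl]

lemma isCompact_ZZ (U : H ≃ₗᵢ[ℂ] H) (ξ : H) : IsCompact (ZZ U ξ) :=
  (isCompact_weak_ball _).of_isClosed_subset isClosed_closure (ZZ_subset U ξ)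

instance (U : H ≃ₗᵢ[ℂ] H) (ξ : H) : CompactSpace (ZZ U ξ) :=
  isCompact_iff_compactSpace.1 (isCompact_ZZ U ξ)

/-- the restricted homeomorphism -/
noncomputable def TZ (U : H ≃ₗᵢ[ℂ] H) (ξ : H) : ZZ U ξ ≃ₜ ZZ U ξ :=
  (weakH U).subtype fun v => by
    conv_rhs => rw [← image_ZZ U ξ]
    exact ((weakH U).injective.mem_set_image).symm

/-- underlying vector -/
noncomputable def vec {U : H ≃ₗᵢ[ℂ] H} {ξ : H} (z : ZZ U ξ) : H := (toWeakSpace ℂ H).symm z.1

lemma vec_injective {U : H ≃ₗᵢ[ℂ] H} {ξ : H} : Function.Injective (vec : ZZ U ξ → H) :=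
  (toWeakSpace ℂ H).symm.injective.comp Subtype.val_injective

lemma continuous_inner_vec {U : H ≃ₗᵢ[ℂ] H} {ξ : H} (η : H) :
    Continuous fun z : ZZ U ξ => inner ℂ η (vec z) :=
  (continuous_inner_weak η).comp continuous_subtype_val

lemma vec_zpow {U : H ≃ₗᵢ[ℂ] H} {ξ : H} (n : ℤ) (z : ZZ U ξ) :
    vec ((TZ U ξ ^ n) z) = (U ^ n) (vec z) :=
  rep_zpow (TZ U ξ) U vec (fun _ => rfl) n z

lemma norm_vec_le {U : H ≃ₗᵢ[ℂ] H} {ξ : H} (z : ZZ U ξ) : ‖vec z‖ ≤ ‖ξ‖ := ZZ_subset U ξ z.2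

/-- base point -/
noncomputable def z0 (U : H ≃ₗᵢ[ℂ] H) (ξ : H) : ZZ U ξ :=
  ⟨toWeakSpace ℂ H ξ, subset_closure ⟨0, rfl⟩⟩

lemma vec_z0 (U : H ≃ₗᵢ[ℂ] H) (ξ : H) : vec (z0 U ξ) = ξ := rfl

lemma z0_transitive (U : H ≃ₗᵢ[ℂ] H) (ξ : H) : IsTransitivePoint (TZ U ξ) (z0 U ξ) := by
  have h : Dense (Subtype.val ⁻¹' (Set.range fun n : ℤ => (weakH U ^ n) (toWeakSpace ℂ H ξ)) :
      Set (ZZ U ξ)) := by
    rw [Subtype.dense_iff]
    have h1 : ZZ U ξ ∩ (Set.range fun n : ℤ => (weakH U ^ n) (toWeakSpace ℂ H ξ))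
        = Set.range fun n : ℤ => (weakH U ^ n) (toWeakSpace ℂ H ξ) :=
      Set.inter_eq_right.2 subset_closure
    rw [Subtype.image_preimage_coe, h1]
    exact subset_rfl
  refine h.mono ?_
  rintro y ⟨n, hn⟩
  exact ⟨n, Subtype.ext ((homeo_zpow (TZ U ξ) (weakH U) Subtype.val (fun _ => rfl) n _).trans hn)⟩

lemma inner_vec_eq_zero {U : H ≃ₗᵢ[ℂ] H} {ξ : H} {d : H}
    (hd : ∀ n : ℤ, inner ℂ d ((U ^ n) ξ) = 0) (z : ZZ U ξ) : inner ℂ d (vec z) = 0 := by
  refine (z0_transitive U ξ).induction_on (p := fun z => inner ℂ d (vec z) = 0) z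
    (isClosed_eq (continuous_inner_vec d) continuous_const) fun n => ?_
  rw [vec_zpow, vec_z0, hd]

lemma metrizable_ZZ (U : H ≃ₗᵢ[ℂ] H) (ξ : H) : TopologicalSpace.MetrizableSpace (ZZ U ξ) := by
  refine Metric.PiNatEmbed.TopologicalSpace.MetrizableSpace.of_countable_separating
    (Y := fun _ : ℤ => ℂ) (fun n z => inner ℂ ((U ^ n) ξ) (vec z))
    (fun n => continuous_inner_vec _) fun x y hxy => ?_
  by_contra hcon
  push Not at hcon
  apply hxy
  have hd : ∀ n : ℤ, inner ℂ (vec x - vec y) ((U ^ n) ξ) = 0 := by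
    intro n
    rw [inner_eq_zero_symm, inner_sub_right, hcon n, sub_self]
  apply vec_injective
  rw [← sub_eq_zero, ← inner_self_eq_zero (𝕜 := ℂ), inner_sub_right, inner_vec_eq_zero hd,
    inner_vec_eq_zero hd, sub_self]

theorem hilbertRepresentable_TZ (U : H ≃ₗᵢ[ℂ] H) (ξ : H) :
    HilbertRepresentable.{w, w} (TZ U ξ) :=
  ⟨metrizable_ZZ U ξ, ⟨H, U⟩, ZZ U ξ, isCompact_ZZ U ξ,
    image_ZZ U ξ, Homeomorph.refl _, fun _ => rfl⟩

end orbit

end Pool.Agent.H336Z.GW
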