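import Mathlib
import Pool.Agent.H336Z.GW.Orbit

open MeasureTheory Filter Topology ComplexConjugate

namespace Pool.Agent.H336Z.GW

section

variable (μ : Measure UnitAddCircle)

lemma memLp_mul (m : ℤ) (f : Lp ℂ 2 μ) : MemLp (fun t => fourier m t * f t) 2 μ := by
  refine (Lp.memLp f).of_le ((fourier m).continuous.aestronglyMeasurable.mul
    (Lp.aestronglyMeasurable f)) (Eventually.of_forall fun t => ?_)
  rw [norm_mul, norm_fourier_apply, one_mul]

/-- multiplication by a character -/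
noncomputable def mulF (m : ℤ) (f : Lp ℂ 2 μ) : Lp ℂ 2 μ := (memLp_mul μ m f).toLp _

lemma mulF_coe (m : ℤ) (f : Lp ℂ 2 μ) : mulF μ m f =ᵐ[μ] fun t => fourier m t * f t :=
  (memLp_mul μ m f).coeFn_toLp

lemma mulF_mulF (m : ℤ) (f : Lp ℂ 2 μ) : mulF μ (-m) (mulF μ m f) = f := by
  apply Lp.ext
  filter_upwards [mulF_coe μ (-m) (mulF μ m f), mulF_coe μ m f] with t h1 h2
  rw [h1, h2, ← mul_assoc, ← fourier_add, neg_add_cancel, fourier_zero, one_mul]

/-- the unitary -/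
noncomputable def UU : Lp ℂ 2 μ ≃ₗᵢ[ℂ] Lp ℂ 2 μ where
  toFun := mulF μ 1
  invFun := mulF μ (-1)
  left_inv := mulF_mulF μ 1
  right_inv f := by simpa using mulF_mulF μ (-1) f
  map_add' f g := by
    apply Lp.ext
    filter_upwards [mulF_coe μ 1 (f + g), mulF_coe μ 1 f, mulF_coe μ 1 g, Lp.coeFn_add f g,
      Lp.coeFn_add (mulF μ 1 f) (mulF μ 1 g)] with t h1 h2 h3 h4 h5
    rw [h1, h5, h4, Pi.add_apply, Pi.add_apply, h2, h3, mul_add]
  map_smul' c f := by
    apply Lp.ext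
    filter_upwards [mulF_coe μ 1 (c • f), mulF_coe μ 1 f, Lp.coeFn_smul c f,
      Lp.coeFn_smul c (mulF μ 1 f)] with t h1 h2 h3 h4
    rw [RingHom.id_apply, h1, h4, h3, Pi.smul_apply, Pi.smul_apply, h2, smul_eq_mul, smul_eq_mul]
    ring
  norm_map' f := by
    change ‖mulF μ 1 f‖ = ‖f‖
    rw [Lp.norm_def, Lp.norm_def]
    congr 1
    apply eLpNorm_congr_norm_ae
    filter_upwards [mulF_coe μ 1 f] with t h
    rw [h, norm_mul, norm_fourier_apply, one_mul]

variable [IsFiniteMeasure μ]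

/-- the characters as elements of `L²` -/
noncomputable def ee (n : ℤ) : Lp ℂ 2 μ := ContinuousMap.toLp 2 μ ℂ (fourier n)

lemma ee_coe (n : ℤ) : ee μ n =ᵐ[μ] fun t => fourier n t :=
  ContinuousMap.coeFn_toLp μ (fourier n)

lemma UU_ee (n : ℤ) : UU μ (ee μ n) = ee μ (n + 1) := by
  apply Lp.ext
  filter_upwards [mulF_coe μ 1 (ee μ n), ee_coe μ n, ee_coe μ (n + 1)] with t h1 h2 h3
  change mulF μ 1 (ee μ n) t = _
  rw [h1, h2, h3, fourier_add, mul_comm]

lemma UU_zpow_ee (n : ℤ) : (UU μ ^ n) (ee μ 0) = ee μ n := by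
  have h := equiv_zpow (Equiv.addRight (1 : ℤ)) (UU μ).toEquiv (ee μ)
    (fun x => (UU_ee μ x).symm) n 0
  rw [unitary_zpow_apply, ← h]
  simp

/-- `g` is a matrix coefficient -/
def Rep (g : ℤ → ℂ) : Prop := ∃ η : Lp ℂ 2 μ, ∀ n, g n = inner ℂ η (ee μ n)

lemma rep_smul {g : ℤ → ℂ} (h : Rep μ g) (c : ℂ) : Rep μ (c • g) := by
  obtain ⟨η, hη⟩ := h
  refine ⟨conj c • η, fun n => ?_⟩
  rw [inner_smul_left, Complex.conj_conj, Pi.smul_apply, hη, smul_eq_mul]

lemma rep_add {g g' : ℤ → ℂ} (h : Rep μ g) (h' : Rep μ g') : Rep μ (g + g') := by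
  obtain ⟨η, hη⟩ := h
  obtain ⟨η', hη'⟩ := h'
  refine ⟨η + η', fun n => ?_⟩
  rw [inner_add_left, Pi.add_apply, hη, hη']

lemma rep_of_le {ν : Measure UnitAddCircle} (h : ν ≤ μ) : Rep μ (hat ν) := by
  have : IsFiniteMeasure ν := isFiniteMeasure_of_le μ h
  have hm : MemLp (fun t => (((ν.rnDeriv μ t).toReal : ℝ) : ℂ)) 2 μ := by
    refine MemLp.of_bound (C := 1) ?_ ?_
    · exact (Complex.measurable_ofReal.comp
        (Measure.measurable_rnDeriv ν μ).ennreal_toReal).aestronglyMeasurable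
    · filter_upwards [Measure.rnDeriv_le_one_of_le h] with t ht
      rw [Complex.norm_real, Real.norm_eq_abs, abs_of_nonneg ENNReal.toReal_nonneg]
      exact ENNReal.toReal_le_of_le_ofReal zero_le_one (by simpa using ht)
  have : ν.HaveLebesgueDecomposition μ := Measure.haveLebesgueDecomposition_of_finiteMeasure
  refine ⟨hm.toLp _, fun n => ?_⟩
  rw [L2.inner_def, hat, ← integral_rnDeriv_smul (Measure.absolutelyContinuous_of_le h)]
  refine integral_congr_ae ?_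
  filter_upwards [hm.coeFn_toLp, ee_coe μ n] with t h1 h2
  rw [h1, h2]
  simp [mul_comm]

end

lemma exists_dom {g : ℤ → ℂ} (hg : g ∈ BB) : ∃ ν : Measure UnitAddCircle, IsFiniteMeasure ν ∧
    ∀ (μ : Measure UnitAddCircle) [IsFiniteMeasure μ] (a : NNReal), a ≠ 0 → a • ν ≤ μ →
      Rep μ g := by
  refine Submodule.span_induction (p := fun g _ => ∃ ν : Measure UnitAddCircle,
    IsFiniteMeasure ν ∧ ∀ (μ : Measure UnitAddCircle) [IsFiniteMeasure μ] (a : NNReal),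
      a ≠ 0 → a • ν ≤ μ → Rep μ g) ?_ ?_ ?_ ?_ hg
  · rintro _ ⟨ν, hν, rfl⟩
    refine ⟨ν, hν, fun μ _ a ha h => ?_⟩
    have h1 := rep_smul μ (rep_of_le μ h) ((a : ℝ) : ℂ)⁻¹
    rwa [hat_smul, smul_smul, inv_mul_cancel₀ (by exact_mod_cast ha), one_smul] at h1
  · exact ⟨0, inferInstance, fun μ _ _ _ _ => ⟨0, fun n => by simp⟩⟩
  · rintro x y _ _ ⟨ν, _, h⟩ ⟨ν', _, h'⟩
    refine ⟨ν + ν', inferInstance, fun μ _ a ha hle => ?_⟩
    rw [smul_add] at hle
    exact rep_add μ (h μ a ha ((Measure.le_add_right le_rfl).trans hle))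
      (h' μ a ha ((Measure.le_add_left le_rfl).trans hle))
  · rintro c x _ ⟨ν, hν, h⟩
    exact ⟨ν, hν, fun μ _ a ha hle => rep_smul μ (h μ a ha hle) c⟩

theorem exists_model {ι : Type} [Countable ι] (g : ι → ℤ → ℂ) (hg : ∀ i, g i ∈ BZ) :
    ∃ (H : Type) (_ : NormedAddCommGroup H) (_ : InnerProductSpace ℂ H) (_ : CompleteSpace H)
      (U : H ≃ₗᵢ[ℂ] H) (ξ : H), ∀ i, ∃ η : H, ∀ n : ℤ, g i n = inner ℂ η ((U ^ n) ξ) := by
  rw [BZ_eq] at hg
  choose ν hν h using fun i => exists_dom (hg i)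
  obtain ⟨ε, hε, hs⟩ := ENNReal.exists_pos_sum_of_countable (ε := 1) one_ne_zero ι
  let a : ι → NNReal := fun i => ε i / (1 + measureUnivNNReal (ν i))
  let μ : Measure UnitAddCircle := Measure.sum fun i => a i • ν i
  have : IsFiniteMeasure μ := by
    constructor
    rw [Measure.sum_apply _ MeasurableSet.univ]
    refine lt_of_le_of_lt (ENNReal.tsum_le_tsum fun i => ?_) (hs.trans ENNReal.one_lt_top)
    rw [Measure.smul_apply, ← coe_measureUnivNNReal, ENNReal.smul_def, smul_eq_mul,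
      ← ENNReal.coe_mul, ENNReal.coe_le_coe]
    simp only [a]
    rw [div_mul_eq_mul_div, div_le_iff₀ (by positivity)]
    gcongr
    exact le_add_self
  refine ⟨Lp ℂ 2 μ, inferInstance, inferInstance, inferInstance, UU μ, ee μ 0, fun i => ?_⟩
  obtain ⟨η, hη⟩ := h i μ (a i) (div_pos (hε i) (by positivity)).ne'
    (Measure.le_sum (fun i => a i • ν i) i)
  exact ⟨η, fun n => by rw [UU_zpow_ee, hη]⟩

end Pool.Agent.H336Z.GW
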