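import Mathlib
import Pool.Agent.H336Z.GW.L2

open MeasureTheory Filter Topology ComplexConjugate

namespace Pool.Agent.H336Z.GW

lemma exists_min_norm {H : Type*} [NormedAddCommGroup H] [InnerProductSpace ℂ H] [CompleteSpace H]
    {C : Set H} (hne : C.Nonempty) (hcl : IsClosed C) (hcv : Convex ℝ C) :
    ∃ v ∈ C, ∀ w ∈ C, ‖w‖ ≤ ‖v‖ → w = v := by
  letI : InnerProductSpace ℝ H := InnerProductSpace.rclikeToReal ℂ H
  obtain ⟨v, hv, hmin⟩ := exists_norm_eq_iInf_of_complete_convex hne hcl.isComplete hcv 0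
  refine ⟨v, hv, fun w hw hle => ?_⟩
  have h1 := (norm_eq_iInf_iff_real_inner_le_zero hcv hv).1 hmin w hw
  rw [zero_sub, inner_neg_left, inner_sub_right, real_inner_self_eq_norm_sq] at h1
  have h2 := norm_sub_sq_real w v
  rw [real_inner_comm] at h2
  have h3 : ‖w‖ ^ 2 ≤ ‖v‖ ^ 2 := by gcongr
  have h4 : ‖w - v‖ ^ 2 ≤ 0 := by linarith
  have h5 : ‖w - v‖ = 0 := by nlinarith [norm_nonneg (w - v)]
  exact sub_eq_zero.1 (norm_eq_zero.1 h5)

theorem exists_almostOneOne {Y : Type*} [TopologicalSpace Y] [CompactSpace Y] [T2Space Y]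
    [TopologicalSpace.MetrizableSpace Y] {S : Y ≃ₜ Y} (hS : IsHilbertSystem S) :
    ∃ (X : Type) (_ : TopologicalSpace X) (_ : CompactSpace X) (_ : T2Space X) (T : X ≃ₜ X)
      (π : X → Y), HilbertRepresentable.{0, 0} T ∧ IsFactorMap T S π ∧ AlmostOneOne π := by
  obtain ⟨y₀, hy₀, hH⟩ := hS
  letI := TopologicalSpace.metrizableSpaceMetric Y
  let F : ℤ → C(Y, ℂ) := fun m => ⟨fun y => ((dist y ((S ^ m) y₀) : ℝ) : ℂ), by fun_prop⟩
  have hF : ∀ y y', (∀ m, F m y = F m y') → y = y' := by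
    intro y y' h
    have h1 : ∀ w, dist y w = dist y' w := fun w =>
      hy₀.induction_on (p := fun w => dist y w = dist y' w) w
        (isClosed_eq (by fun_prop) (by fun_prop)) fun m => Complex.ofReal_injective (h m)
    have := h1 y'
    rwa [dist_self, dist_eq_zero] at this
  have hg : ∀ i : ℤ × ℕ, ∃ g ∈ BZ, ∀ n : ℤ,
      ‖F i.1 ((S ^ n) y₀) - g n‖ ≤ 1 / ((i.2 : ℝ) + 1) :=
    fun i => hH ⟨F i.1, rfl⟩ _ (by positivity)
  choose g hgB hg using hg
  obtain ⟨H, _, _, _, U, ξ, hη⟩ := exists_model g hgB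
  choose η hη using hη
  let C : Set H := {v | ∀ (i : ℤ × ℕ) (n : ℤ),
    ‖F i.1 ((S ^ n) y₀) - inner ℂ (η i) ((U ^ n) v)‖ ≤ 1 / ((i.2 : ℝ) + 1)}
  have hne : C.Nonempty := ⟨ξ, fun i n => by rw [← hη]; exact hg i n⟩
  have hcl : IsClosed C := by
    simp only [C, Set.setOf_forall]
    refine isClosed_iInter fun i => isClosed_iInter fun n => isClosed_le ?_ continuous_const
    exact (continuous_const.sub (continuous_const.inner (U ^ n).continuous)).norm
  have hcv : Convex ℝ C := by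
    intro v hv w hw a b ha hb hab i n
    have h1 : F i.1 ((S ^ n) y₀) - inner ℂ (η i) ((U ^ n) (a • v + b • w))
        = (a : ℂ) * (F i.1 ((S ^ n) y₀) - inner ℂ (η i) ((U ^ n) v))
          + (b : ℂ) * (F i.1 ((S ^ n) y₀) - inner ℂ (η i) ((U ^ n) w)) := by
      rw [← Complex.coe_smul, ← Complex.coe_smul, map_add, map_smul, map_smul, inner_add_right,
        inner_smul_right, inner_smul_right]
      have hab' : (a : ℂ) + b = 1 := by exact_mod_cast hab
      linear_combination (-(F i.1 ((S ^ n) y₀))) * hab'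
    rw [h1]
    refine (norm_add_le _ _).trans ?_
    rw [norm_mul, norm_mul, Complex.norm_real, Complex.norm_real, Real.norm_of_nonneg ha,
      Real.norm_of_nonneg hb]
    calc _ ≤ a * (1 / ((i.2 : ℝ) + 1)) + b * (1 / ((i.2 : ℝ) + 1)) := by
          gcongr
          · exact hv i n
          · exact hw i n
      _ = _ := by rw [← add_mul, hab, one_mul]
  obtain ⟨ξ₀, hξ₀, hmin⟩ := exists_min_norm hne hcl hcv
  have hJ : ∀ p ∈ joint (TZ U ξ₀) S (z0 U ξ₀) y₀, ∀ (i : ℤ × ℕ) (n : ℤ),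
      ‖F i.1 ((S ^ n) p.2) - inner ℂ (η i) (vec ((TZ U ξ₀ ^ n) p.1))‖ ≤ 1 / ((i.2 : ℝ) + 1) := by
    intro p hp i n
    refine closure_minimal (t := {p : ZZ U ξ₀ × Y | ‖F i.1 ((S ^ n) p.2)
      - inner ℂ (η i) (vec ((TZ U ξ₀ ^ n) p.1))‖ ≤ 1 / ((i.2 : ℝ) + 1)}) ?_ ?_ hp
    · rintro _ ⟨j, rfl⟩
      simp only [Set.mem_setOf_eq]
      rw [← zpow_add_apply, ← zpow_add_apply, vec_zpow, vec_z0]
      exact hξ₀ i _
    · refine isClosed_le (Continuous.norm (Continuous.sub ?_ ?_)) continuous_const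
      · exact (F i.1).continuous.comp ((S ^ n).continuous.comp continuous_snd)
      · exact (continuous_inner_vec _).comp ((TZ U ξ₀ ^ n).continuous.comp continuous_fst)
  obtain ⟨π, hπ, hπ0, hπJ⟩ := exists_pointed_factor (z0_transitive U ξ₀) hy₀ (by
    intro x y y' h h'
    refine hF y y' fun m => ?_
    rw [← sub_eq_zero, ← norm_le_zero_iff]
    refine le_of_forall_pos_le_add fun ε hε => ?_
    obtain ⟨k, hk⟩ := exists_nat_one_div_lt (half_pos hε)
    have h1 := hJ _ h (m, k) 0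
    have h2 := hJ _ h' (m, k) 0
    simp only [zpow_zero, Homeomorph.one_apply] at h1 h2
    have h3 := norm_sub_le_norm_sub_add_norm_sub (F m y) (inner ℂ (η (m, k)) (vec x)) (F m y')
    rw [norm_sub_rev (inner ℂ (η (m, k)) (vec x))] at h3
    linarith)
  have := metrizable_ZZ U ξ₀
  refine ⟨ZZ U ξ₀, inferInstance, inferInstance, inferInstance, TZ U ξ₀, π,
    hilbertRepresentable_TZ U ξ₀, hπ, almostOneOne_of hπ (z0_transitive U ξ₀) fun x hx => ?_⟩
  apply vec_injective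
  rw [vec_z0]
  refine hmin _ (fun i n => ?_) (norm_vec_le x)
  have := hJ _ (hπJ x) i n
  rwa [hx, hπ0, vec_zpow] at this

/-- Every element of `𝒜(X, x₀) ∩ B(ℤ)` factors through a Hilbert-representable factor. -/
theorem exists_factor_of_mem_BZ {X : Type*} [TopologicalSpace X] [CompactSpace X]
    {T : X ≃ₜ X} {x₀ : X} (hx₀ : IsTransitivePoint T x₀) {h : ℤ → ℂ}
    (h1 : h ∈ orbitAlgebra T x₀) (h2 : h ∈ BZ) :
    ∃ (W : Type) (_ : TopologicalSpace W) (_ : CompactSpace W) (_ : T2Space W) (S : W ≃ₜ W)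
      (ρ : X → W) (G : W → ℂ), HilbertRepresentable.{0, 0} S ∧ IsFactorMap T S ρ ∧
      ∀ n : ℤ, h n = G (ρ ((T ^ n) x₀)) := by
  obtain ⟨F, rfl⟩ := h1
  obtain ⟨H, _, _, _, U, ξ, hη⟩ := exists_model (ι := Unit) (fun _ => _) (fun _ => h2)
  obtain ⟨η, hη⟩ := hη ()
  let N : Submodule ℂ H := (Submodule.span ℂ (Set.range fun b : ℤ => (U ^ b) η))ᗮ
  have hN : ∀ w, w ∈ N ↔ ∀ b : ℤ, inner ℂ ((U ^ b) η) w = 0 := by
    intro w
    constructor
    · intro hw b
      exact Submodule.inner_right_of_mem_orthogonal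
        (Submodule.subset_span (Set.mem_range_self b)) hw
    · intro hw
      rw [Submodule.mem_orthogonal]
      intro u hu
      refine Submodule.span_induction (p := fun u _ => inner ℂ u w = 0) ?_ ?_ ?_ ?_ hu
      · rintro _ ⟨b, rfl⟩
        exact hw b
      · exact inner_zero_left _
      · intro x y _ _ hx hy
        rw [inner_add_left, hx, hy, add_zero]
      · intro a x _ hx
        rw [inner_smul_left, hx, mul_zero]
  obtain ⟨ξ₁, hξ₁, ξ₀, hξ₀, hξ⟩ := N.exists_add_mem_mem_orthogonal ξ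
  have hη₀ : ∀ n : ℤ, F ((T ^ n) x₀) = inner ℂ η ((U ^ n) ξ₀) := by
    intro n
    have a1 : inner ℂ η ((U ^ n) ξ₁) = 0 := by
      have := (hN _).1 hξ₁ (-n)
      rwa [inner_zpow, neg_neg] at this
    rw [hη n, hξ, map_add, inner_add_right, a1, zero_add]
  have hJ : ∀ p ∈ joint T (TZ U ξ₀) x₀ (z0 U ξ₀), ∀ n : ℤ,
      F ((T ^ n) p.1) = inner ℂ η (vec ((TZ U ξ₀ ^ n) p.2)) := by
    intro p hp n
    refine closure_minimal (t := {p : X × ZZ U ξ₀ |
      F ((T ^ n) p.1) = inner ℂ η (vec ((TZ U ξ₀ ^ n) p.2))}) ?_ ?_ hp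
    · rintro _ ⟨j, rfl⟩
      simp only [Set.mem_setOf_eq]
      rw [← zpow_add_apply, ← zpow_add_apply, vec_zpow, vec_z0]
      exact hη₀ _
    · refine isClosed_eq ?_ ?_
      · exact F.continuous.comp ((T ^ n).continuous.comp continuous_fst)
      · exact (continuous_inner_vec _).comp ((TZ U ξ₀ ^ n).continuous.comp continuous_snd)
  obtain ⟨ρ, hρ, hρ0, -⟩ := exists_pointed_factor hx₀ (z0_transitive U ξ₀) (by
    intro x y y' h h'
    have hd : vec y - vec y' ∈ N := by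
      rw [hN]
      intro b
      have a1 := hJ _ h (-b)
      have a2 := hJ _ h' (-b)
      simp only [vec_zpow] at a1 a2
      rw [inner_sub_right, inner_zpow, inner_zpow, ← a1, ← a2, sub_self]
    have hd2 : ∀ n : ℤ, inner ℂ (vec y - vec y') ((U ^ n) ξ₀) = 0 := by
      intro n
      have a1 : (U ^ (-n)) (vec y - vec y') ∈ N := by
        rw [hN]
        intro b
        have := (hN _).1 hd (n + b)
        rwa [uzpow_add_apply, inner_zpow] at this
      have := Submodule.inner_right_of_mem_orthogonal a1 hξ₀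
      rwa [inner_zpow, neg_neg] at this
    apply vec_injective
    rw [← sub_eq_zero, ← inner_self_eq_zero (𝕜 := ℂ), inner_sub_right, inner_vec_eq_zero hd2,
      inner_vec_eq_zero hd2, sub_self])
  refine ⟨ZZ U ξ₀, inferInstance, inferInstance, inferInstance, TZ U ξ₀, ρ,
    fun z => inner ℂ η (vec z), hilbertRepresentable_TZ U ξ₀, hρ, fun n => ?_⟩
  change F ((T ^ n) x₀) = inner ℂ η (vec (ρ ((T ^ n) x₀)))
  rw [homeo_zpow T (TZ U ξ₀) ρ hρ.2.2, hρ0, vec_zpow, vec_z0, hη₀]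

lemma not_subsingleton_YY : ¬ Subsingleton YY := by
  intro h
  exact pt_one_ne (le_refl 1) (Subsingleton.elim _ _)

lemma id_factor : IsFactorMap TY TY id := ⟨continuous_id, Function.surjective_id, fun _ => rfl⟩

end Pool.Agent.H336Z.GW
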